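import Mathlib

/-!
# Words, the quasi-shuffle product and deconcatenation

The letter `a` stands for the exponent `a + 1`.
-/

set_option autoImplicit false

namespace Pool.Agent.X142.MZ

/-- the weight of a word -/
def wt : List ℕ → ℕ
  | [] => 0
  | a :: w => (a + 1) + wt w

@[simp] lemma wt_nil : wt [] = 0 := rfl
@[simp] lemma wt_cons (a : ℕ) (w : List ℕ) : wt (a :: w) = (a + 1) + wt w := rfl

/-- the quasi-shuffle product of two words, as a list of words -/
def qs : List ℕ → List ℕ → List (List ℕ)
  | [], v => [v]
  | a :: u, [] => [a :: u]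
  | a :: u, b :: v => (qs u (b :: v)).map (List.cons a) ++ ((qs (a :: u) v).map (List.cons b) ++
      (qs u v).map (List.cons (a + b + 1)))
termination_by u v => u.length + v.length

lemma qs_nil_left (v : List ℕ) : qs [] v = [v] := by rw [qs]

lemma qs_nil_right (u : List ℕ) : qs u [] = [u] := by
  cases u <;> rw [qs]

lemma qs_cons (a b : ℕ) (u v : List ℕ) : qs (a :: u) (b :: v) =
    (qs u (b :: v)).map (List.cons a) ++ ((qs (a :: u) v).map (List.cons b) ++
      (qs u v).map (List.cons (a + b + 1))) := by rw [qs]

/-- the ways to write a word as a concatenation -/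
def splits : List ℕ → List (List ℕ × List ℕ)
  | [] => [([], [])]
  | a :: w => ([], a :: w) :: (splits w).map fun p => (a :: p.1, p.2)

lemma splits_nil : splits [] = [([], [])] := rfl

lemma splits_cons (a : ℕ) (w : List ℕ) :
    splits (a :: w) = ([], a :: w) :: (splits w).map fun p => (a :: p.1, p.2) := rfl

section

variable {M : Type} [AddCommMonoid M]

/-- sum over a list -/
def S {α : Type} (l : List α) (f : α → M) : M := (l.map f).sum

lemma S_nil {α : Type} (f : α → M) : S [] f = 0 := rfl

lemma S_cons {α : Type} (a : α) (l : List α) (f : α → M) : S (a :: l) f = f a + S l f := by simp [S]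

lemma S_append {α : Type} (l l' : List α) (f : α → M) : S (l ++ l') f = S l f + S l' f := by simp [S]

lemma S_map {α β : Type} (l : List α) (g : α → β) (f : β → M) : S (l.map g) f = S l fun x => f (g x) := by
  simp [S, Function.comp_def]

lemma S_single {α : Type} (a : α) (f : α → M) : S [a] f = f a := by simp [S]

lemma S_add {α : Type} (l : List α) (f g : α → M) : (S l fun x => f x + g x) = S l f + S l g := by
  induction l with
  | nil => simp [S]
  | cons a l ih => rw [S_cons, S_cons, S_cons, ih]; abel

lemma S_congr {α : Type} {l : List α} {f g : α → M} (h : ∀ x ∈ l, f x = g x) : S l f = S l g := by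
  unfold S
  rw [List.map_congr_left h]

lemma S_zero {α : Type} (l : List α) : (S l fun _ => (0 : M)) = 0 := by
  induction l with
  | nil => rfl
  | cons a l ih => rw [S_cons, ih, zero_add]

lemma S_hom {N : Type} [AddCommMonoid N] {α : Type} (l : List α) (f : α → M) (φ : M →+ N) :
    φ (S l f) = S l fun x => φ (f x) := by
  induction l with
  | nil => simp [S]
  | cons a l ih => rw [S_cons, S_cons, map_add, ih]

/-- the weight is additive -/
lemma wt_qs : ∀ (u v : List ℕ), ∀ w ∈ qs u v, wt w = wt u + wt v
  | [], v, w, hw => by
    rw [qs_nil_left, List.mem_singleton] at hw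
    simp [hw]
  | a :: u, [], w, hw => by
    rw [qs_nil_right, List.mem_singleton] at hw
    simp [hw]
  | a :: u, b :: v, w, hw => by
    rw [qs_cons, List.mem_append, List.mem_append, List.mem_map, List.mem_map, List.mem_map] at hw
    rcases hw with ⟨w', hw', rfl⟩ | ⟨w', hw', rfl⟩ | ⟨w', hw', rfl⟩
    · have := wt_qs u (b :: v) w' hw'
      simp only [wt_cons] at this ⊢
      omega
    · have := wt_qs (a :: u) v w' hw'
      simp only [wt_cons] at this ⊢
      omega
    · have := wt_qs u v w' hw'
      simp only [wt_cons] at this ⊢
      omega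
termination_by u v => u.length + v.length

lemma qs_ne_nil : ∀ (u v : List ℕ), u ≠ [] → ∀ w ∈ qs u v, w ≠ [] := by
  intro u v hu w hw h
  have h1 := wt_qs u v w hw
  rw [h] at h1
  cases u with
  | nil => exact hu rfl
  | cons a u =>
    simp only [wt_cons, wt_nil] at h1
    omega

/-- deconcatenation is multiplicative -/
theorem coprod : ∀ (u v : List ℕ) (h : List ℕ → List ℕ → M),
    (S (qs u v) fun w => S (splits w) fun p => h p.1 p.2) =
      S (splits u) fun p => S (splits v) fun q => S (qs p.1 q.1) fun w => S (qs p.2 q.2) fun w' => h w w'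
  | [], v, h => by
    rw [qs_nil_left, S_single, splits_nil, S_single]
    refine S_congr fun q _ => ?_
    simp only [qs_nil_left, S_single]
  | a :: u, [], h => by
    rw [qs_nil_right, S_single]
    refine S_congr fun q _ => ?_
    rw [splits_nil, S_single]
    simp only [qs_nil_right, S_single]
  | a :: u, b :: v, h => by
    have ih1 := coprod u (b :: v) fun p q => h (a :: p) q
    have ih2 := coprod (a :: u) v fun p q => h (b :: p) q
    have ih3 := coprod u v fun p q => h ((a + b + 1) :: p) q
    have hL : (S (qs (a :: u) (b :: v)) fun w => S (splits w) fun p => h p.1 p.2) =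
        (S (qs (a :: u) (b :: v)) fun w => h [] w) +
        ((S (qs u (b :: v)) fun w => S (splits w) fun p => h (a :: p.1) p.2) +
        ((S (qs (a :: u) v) fun w => S (splits w) fun p => h (b :: p.1) p.2) +
        (S (qs u v) fun w => S (splits w) fun p => h ((a + b + 1) :: p.1) p.2))) := by
      rw [qs_cons]
      simp only [S_append, S_map, splits_cons, S_cons, S_add]
      abel
    rw [hL, ih1, ih2, ih3]
    simp only [splits_cons, S_cons, S_map, qs_nil_left, qs_nil_right, qs_cons, S_append, S_add, S_nil,
      S_zero, add_zero]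
    abel
termination_by u v => u.length + v.length

end

/-- finitely many words of given weight -/
lemma finite_wt : ∀ n : ℕ, {w : List ℕ | wt w = n}.Finite := by
  intro n
  induction n using Nat.strong_induction_on with
  | _ n ih =>
    have h1 : {w : List ℕ | wt w = n} ⊆ {[]} ∪ ⋃ a ∈ Finset.range n,
        (List.cons a) '' {w : List ℕ | wt w = n - (a + 1)} := by
      intro w hw
      cases w with
      | nil => left; rfl
      | cons a w =>
        right
        have hw' : wt (a :: w) = n := hw
        rw [wt_cons] at hw'
        rw [Set.mem_iUnion₂]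
        refine ⟨a, Finset.mem_range.2 (by omega), w, ?_, rfl⟩
        show wt w = _
        omega
    refine Set.Finite.subset ?_ h1
    refine (Set.finite_singleton _).union ?_
    refine Set.Finite.biUnion (Finset.finite_toSet _) fun a ha => ?_
    have ha' := Finset.mem_range.1 (Finset.mem_coe.1 ha)
    by_cases hn : n = 0
    · omega
    · exact (ih _ (by omega)).image _

/-- admissible words: empty, or the last letter is positive -/
def adm : List ℕ → Prop
  | [] => True
  | [a] => 1 ≤ a
  | _ :: b :: w => adm (b :: w)

lemma adm_nil : adm [] := trivial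

lemma adm_tail {a : ℕ} {w : List ℕ} (h : adm (a :: w)) : adm w := by
  cases w with
  | nil => exact trivial
  | cons b w => exact h

lemma adm_cons {a : ℕ} {w : List ℕ} (hw : w ≠ []) (h : adm w) : adm (a :: w) := by
  cases w with
  | nil => exact absurd rfl hw
  | cons b w => exact h

lemma adm_qs : ∀ (u v : List ℕ), adm u → adm v → ∀ w ∈ qs u v, adm w
  | [], v, _, hv, w, hw => by
    rw [qs_nil_left, List.mem_singleton] at hw
    rw [hw]
    exact hv
  | a :: u, [], hu, _, w, hw => by
    rw [qs_nil_right, List.mem_singleton] at hw
    rw [hw]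
    exact hu
  | a :: u, b :: v, hu, hv, w, hw => by
    rw [qs_cons, List.mem_append, List.mem_append, List.mem_map, List.mem_map, List.mem_map] at hw
    rcases hw with ⟨w', hw', rfl⟩ | ⟨w', hw', rfl⟩ | ⟨w', hw', rfl⟩
    · refine adm_cons ?_ (adm_qs u (b :: v) (adm_tail hu) hv w' hw')
      intro h
      have h1 := wt_qs u (b :: v) w' hw'
      rw [h] at h1
      simp only [wt_cons, wt_nil] at h1
      omega
    · refine adm_cons ?_ (adm_qs (a :: u) v hu (adm_tail hv) w' hw')
      intro h
      have h1 := wt_qs (a :: u) v w' hw'
      rw [h] at h1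
      simp only [wt_cons, wt_nil] at h1
      omega
    · have h2 := adm_qs u v (adm_tail hu) (adm_tail hv) w' hw'
      cases w' with
      | nil =>
        show 1 ≤ a + b + 1
        omega
      | cons c w' => exact h2
termination_by u v => u.length + v.length

lemma adm_splits : ∀ (w : List ℕ), adm w → ∀ p ∈ splits w, adm p.2
  | [], _, p, hp => by
    rw [splits_nil, List.mem_singleton] at hp
    rw [hp]
    exact trivial
  | a :: w, h, p, hp => by
    rw [splits_cons, List.mem_cons, List.mem_map] at hp
    rcases hp with rfl | ⟨q, hq, rfl⟩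
    · exact h
    · exact adm_splits w (adm_tail h) q hq

/-- commutativity -/
theorem qs_comm {M : Type} [AddCommMonoid M] : ∀ (u v : List ℕ) (h : List ℕ → M),
    S (qs u v) h = S (qs v u) h
  | [], v, h => by rw [qs_nil_left, qs_nil_right]
  | a :: u, [], h => by rw [qs_nil_left, qs_nil_right]
  | a :: u, b :: v, h => by
    have ih1 := qs_comm u (b :: v) fun w => h (a :: w)
    have ih2 := qs_comm (a :: u) v fun w => h (b :: w)
    have ih3 := qs_comm u v fun w => h ((a + b + 1) :: w)
    rw [qs_cons, qs_cons]
    simp only [S_append, S_map]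
    rw [ih1, ih2, ih3, show b + a + 1 = a + b + 1 by omega]
    abel
termination_by u v => u.length + v.length

/-- associativity -/
theorem qs_assoc {M : Type} [AddCommMonoid M] : ∀ (u v x : List ℕ) (h : List ℕ → M),
    (S (qs u v) fun w => S (qs w x) h) = S (qs v x) fun w => S (qs u w) h
  | [], v, x, h => by
    rw [qs_nil_left, S_single]
    refine S_congr fun w _ => ?_
    rw [qs_nil_left, S_single]
  | a :: u, [], x, h => by
    rw [qs_nil_left, qs_nil_right, S_single, S_single]
  | a :: u, b :: v, [], h => by
    rw [qs_nil_right, S_single]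
    refine S_congr fun w _ => ?_
    rw [qs_nil_right, S_single]
  | a :: u, b :: v, c :: x, h => by
    have i1 := qs_assoc u (b :: v) (c :: x) fun w => h (a :: w)
    have i2 := qs_assoc u (b :: v) x fun w => h ((a + c + 1) :: w)
    have i3 := qs_assoc (a :: u) v (c :: x) fun w => h (b :: w)
    have i4 := qs_assoc (a :: u) v x fun w => h ((b + c + 1) :: w)
    have i5 := qs_assoc u v (c :: x) fun w => h ((a + b + 1) :: w)
    have i6 := qs_assoc u v x fun w => h ((a + b + 1 + c + 1) :: w)
    have i7 := qs_assoc (a :: u) (b :: v) x fun w => h (c :: w)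
    have hL : (S (qs (a :: u) (b :: v)) fun w => S (qs w (c :: x)) h) =
        (S (qs u (b :: v)) fun w => S (qs w (c :: x)) fun w => h (a :: w)) +
        ((S (qs u (b :: v)) fun w => S (qs w x) fun w => h ((a + c + 1) :: w)) +
        ((S (qs (a :: u) v) fun w => S (qs w (c :: x)) fun w => h (b :: w)) +
        ((S (qs (a :: u) v) fun w => S (qs w x) fun w => h ((b + c + 1) :: w)) +
        ((S (qs u v) fun w => S (qs w (c :: x)) fun w => h ((a + b + 1) :: w)) +
        ((S (qs u v) fun w => S (qs w x) fun w => h ((a + b + 1 + c + 1) :: w)) +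
        (S (qs (a :: u) (b :: v)) fun w => S (qs w x) fun w => h (c :: w))))))) := by
      rw [qs_cons]
      simp only [S_append, S_map, qs_cons, S_add]
      abel
    have hR : (S (qs (b :: v) (c :: x)) fun w => S (qs (a :: u) w) h) =
        (S (qs (b :: v) (c :: x)) fun w => S (qs u w) fun w => h (a :: w)) +
        ((S (qs (b :: v) x) fun w => S (qs u w) fun w => h ((a + c + 1) :: w)) +
        ((S (qs v (c :: x)) fun w => S (qs (a :: u) w) fun w => h (b :: w)) +
        ((S (qs v x) fun w => S (qs (a :: u) w) fun w => h ((b + c + 1) :: w)) +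
        ((S (qs v (c :: x)) fun w => S (qs u w) fun w => h ((a + b + 1) :: w)) +
        ((S (qs v x) fun w => S (qs u w) fun w => h ((a + b + 1 + c + 1) :: w)) +
        (S (qs (b :: v) x) fun w => S (qs (a :: u) w) fun w => h (c :: w))))))) := by
      rw [qs_cons b c v x]
      simp only [S_append, S_map, qs_cons, S_add]
      rw [show a + b + 1 + c + 1 = a + (b + c + 1) + 1 by omega]
      abel
    rw [hL, hR, i1, i2, i3, i4, i5, i6, i7]
termination_by u v x => u.length + v.length + x.length

end Pool.Agent.X142.MZ
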