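import Mathlib
import Pool.Agent.X142.MZ.Words
import Pool.Agent.X142.AZ.Hurw

/-!
# Multiple Hurwitz zeta functions, all admissible words
-/

set_option autoImplicit false

namespace Pool.Agent.X142.MZ

open Filter Topology
open Pool.Agent.X142.AZ (Om mem_Om exists_N)

/-- the multiple Hurwitz zeta function of a word (the letter `a` stands for the exponent `a + 1`, the
first letter belongs to the smallest summation variable) -/
noncomputable def F : List ℕ → ℂ → ℂ
  | [], _ => 1
  | a :: w, z => ∑' n : ℕ, ((z + n) ^ (a + 1))⁻¹ * F w (z + n + 1)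

lemma F_nil (z : ℂ) : F [] z = 1 := rfl

lemma F_cons (a : ℕ) (w : List ℕ) (z : ℂ) :
    F (a :: w) z = ∑' n : ℕ, ((z + n) ^ (a + 1))⁻¹ * F w (z + n + 1) := rfl

/-- telescoping -/
lemma hasSum_tel {x : ℝ} (hx : 0 < x) : HasSum (fun n : ℕ => 2 * ((x + n) * (x + n + 1))⁻¹) (2 * x⁻¹) := by
  refine HasSum.mul_left 2 ?_
  have h1 : ∀ n : ℕ, 0 ≤ ((x + n) * (x + n + 1))⁻¹ := fun n => by positivity
  rw [hasSum_iff_tendsto_nat_of_nonneg h1]
  have h2 : ∀ N : ℕ, ∑ n ∈ Finset.range N, ((x + n) * (x + n + 1))⁻¹ = x⁻¹ - (x + N)⁻¹ := by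
    intro N
    induction N with
    | zero => simp
    | succ N ih =>
      rw [Finset.sum_range_succ, ih]
      push_cast
      have h3 : x + N ≠ 0 := by positivity
      have h4 : x + N + 1 ≠ 0 := by positivity
      have h5 : x + (N + 1) ≠ 0 := by positivity
      field_simp
      ring
  simp only [h2]
  have h3 : Tendsto (fun N : ℕ => (x + N)⁻¹) atTop (𝓝 0) := by
    apply Tendsto.inv_tendsto_atTop
    exact tendsto_atTop_add_const_left _ _ tendsto_natCast_atTop_atTop
  have h4 := (tendsto_const_nhds (x := x⁻¹)).sub h3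
  rwa [sub_zero] at h4

lemma norm_ge {z : ℂ} (n : ℕ) : z.re + n ≤ ‖z + n‖ := by
  refine le_trans (le_of_eq ?_) (Complex.re_le_norm _)
  rw [Complex.add_re, Complex.natCast_re]

/-- one term -/
lemma term_bound {a : ℕ} {w : List ℕ} (hadm : adm (a :: w))
    (ih : w ≠ [] → ∀ z : ℂ, 1 < z.re → ‖F w z‖ ≤ 2 * z.re⁻¹) {z : ℂ} (hz : 1 < z.re) (n : ℕ) :
    ‖((z + n) ^ (a + 1))⁻¹ * F w (z + n + 1)‖ ≤ 2 * ((z.re + n) * (z.re + n + 1))⁻¹ := by
  have hn : (0 : ℝ) ≤ n := Nat.cast_nonneg n
  have hx : 1 < z.re + n := by linarith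
  have hx0 : 0 < z.re + n := by linarith
  have h1 := norm_ge (z := z) n
  rw [norm_mul, norm_inv, norm_pow]
  by_cases hw : w = []
  · subst hw
    rw [F_nil, norm_one, mul_one]
    have ha : 1 ≤ a := hadm
    have h2 : (z.re + n) ^ 2 ≤ ‖z + n‖ ^ (a + 1) := by
      calc (z.re + n) ^ 2 ≤ (z.re + n) ^ (a + 1) := pow_le_pow_right₀ hx.le (by omega)
        _ ≤ _ := pow_le_pow_left₀ hx0.le h1 _
    have h3 : (‖z + n‖ ^ (a + 1))⁻¹ ≤ ((z.re + n) ^ 2)⁻¹ := inv_anti₀ (by positivity) h2
    refine h3.trans ?_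
    rw [← div_eq_mul_inv, le_div_iff₀ (by positivity), inv_mul_le_iff₀ (by positivity)]
    nlinarith
  · have h2 : z.re + n ≤ ‖z + n‖ ^ (a + 1) := by
      calc z.re + n = (z.re + n) ^ 1 := (pow_one _).symm
        _ ≤ (z.re + n) ^ (a + 1) := pow_le_pow_right₀ hx.le (by omega)
        _ ≤ _ := pow_le_pow_left₀ hx0.le h1 _
    have h3 : (‖z + n‖ ^ (a + 1))⁻¹ ≤ (z.re + n)⁻¹ := inv_anti₀ hx0 h2
    have h4 : (z + n + 1).re = z.re + n + 1 := by simp
    have h5 := ih hw (z + n + 1) (by rw [h4]; linarith)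
    rw [h4] at h5
    calc (‖z + n‖ ^ (a + 1))⁻¹ * ‖F w (z + n + 1)‖ ≤ (z.re + n)⁻¹ * (2 * (z.re + n + 1)⁻¹) :=
          mul_le_mul h3 h5 (norm_nonneg _) (by positivity)
      _ = 2 * ((z.re + n) * (z.re + n + 1))⁻¹ := by
          rw [mul_inv]
          ring

lemma F_bound : ∀ (w : List ℕ), adm w → w ≠ [] → ∀ z : ℂ, 1 < z.re → ‖F w z‖ ≤ 2 * z.re⁻¹
  | [], _, h, _, _ => absurd rfl h
  | a :: w, hadm, _, z, hz => by
    rw [F_cons]
    exact tsum_of_norm_bounded (hasSum_tel (by linarith))
      fun n => term_bound hadm (fun hw => F_bound w (adm_tail hadm) hw) hz n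

lemma term_bound' {a : ℕ} {w : List ℕ} (hadm : adm (a :: w)) {z : ℂ} (hz : 1 < z.re) (n : ℕ) :
    ‖((z + n) ^ (a + 1))⁻¹ * F w (z + n + 1)‖ ≤ 2 * ((z.re + n) * (z.re + n + 1))⁻¹ :=
  term_bound hadm (fun hw => F_bound w (adm_tail hadm) hw) hz n

lemma F_summable {a : ℕ} {w : List ℕ} (hadm : adm (a :: w)) (z : ℂ) :
    Summable fun n : ℕ => ((z + n) ^ (a + 1))⁻¹ * F w (z + n + 1) := by
  obtain ⟨N, hN⟩ := exists_N z
  rw [← summable_nat_add_iff N]
  have hN' : 1 < (z + N).re := by simpa using hN
  refine Summable.of_norm_bounded (hasSum_tel (x := (z + N).re) (by linarith)).summable fun n => ?_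
  have h1 := term_bound' hadm hN' n
  have h2 : z + (N : ℂ) + n = z + ((n + N : ℕ) : ℂ) := by push_cast; ring
  rw [h2] at h1
  exact h1

/-- the difference equation -/
lemma F_succ {a : ℕ} {w : List ℕ} (hadm : adm (a :: w)) (z : ℂ) :
    F (a :: w) z = F (a :: w) (z + 1) + (z ^ (a + 1))⁻¹ * F w (z + 1) := by
  have h1 := (F_summable hadm z).tsum_eq_zero_add
  rw [← F_cons] at h1
  rw [h1, add_comm]
  congr 1
  · rw [F_cons]
    refine tsum_congr fun n => ?_
    push_cast
    congr 2
    · congr 1
      ring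
    · ring
  · simp

lemma F_tail {w : List ℕ} (hadm : adm w) (hw : w ≠ []) {z : ℂ} (hz : 1 < z.re) :
    Tendsto (fun N : ℕ => F w (z + N)) atTop (𝓝 0) := by
  have h1 : ∀ N : ℕ, ‖F w (z + N)‖ ≤ 2 * (z.re + N)⁻¹ := by
    intro N
    have h2 : (z + N).re = z.re + N := by simp
    have h3 := F_bound w hadm hw (z + N) (by
      rw [h2]
      have : (0 : ℝ) ≤ N := Nat.cast_nonneg N
      linarith)
    rwa [h2] at h3
  have h2 : Tendsto (fun N : ℕ => 2 * (z.re + N)⁻¹) atTop (𝓝 0) := by
    have h3 : Tendsto (fun N : ℕ => (z.re + N)⁻¹) atTop (𝓝 0) := by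
      apply Tendsto.inv_tendsto_atTop
      exact tendsto_atTop_add_const_left _ _ tendsto_natCast_atTop_atTop
    have h4 := h3.const_mul 2
    rwa [mul_zero] at h4
  exact squeeze_zero_norm h1 h2

lemma F_tail_ne {w : List ℕ} (hadm : adm w) (hw : w ≠ []) (z : ℂ) :
    Tendsto (fun N : ℕ => F w (z + N)) atTop (𝓝 0) := by
  obtain ⟨M, hM⟩ := exists_N z
  have h1 := F_tail hadm hw (z := z + M) (by simpa using hM)
  rw [← tendsto_add_atTop_iff_nat M]
  refine h1.congr fun N => ?_
  congr 1
  push_cast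
  ring

lemma S_tendsto {l : List (List ℕ)} (h : ∀ w ∈ l, w ≠ []) (hadm : ∀ w ∈ l, adm w) (z : ℂ) :
    Tendsto (fun N : ℕ => S l fun w => F w (z + N)) atTop (𝓝 0) := by
  induction l with
  | nil =>
    simp only [S_nil]
    exact tendsto_const_nhds
  | cons w l ih =>
    simp only [S_cons]
    have h1 := (F_tail_ne (hadm w (List.mem_cons_self ..)) (h w (List.mem_cons_self ..)) z).add
      (ih (fun w' hw' => h w' (List.mem_cons_of_mem _ hw')) fun w' hw' => hadm w' (List.mem_cons_of_mem _ hw'))
    rwa [add_zero] at h1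

/-- the product formula -/
theorem F_mul : ∀ (u v : List ℕ), adm u → adm v → ∀ z : ℂ, F u z * F v z = S (qs u v) fun w => F w z
  | [], v, _, _, z => by rw [qs_nil_left, S_single, F_nil, one_mul]
  | a :: u, [], _, _, z => by rw [qs_nil_right, S_single, F_nil, mul_one]
  | a :: u, b :: v, hu, hv, z => by
    have ih1 := F_mul u (b :: v) (adm_tail hu) hv
    have ih2 := F_mul (a :: u) v hu (adm_tail hv)
    have ih3 := F_mul u v (adm_tail hu) (adm_tail hv)
    set E : ℂ → ℂ := fun z => F (a :: u) z * F (b :: v) z - S (qs (a :: u) (b :: v)) fun w => F w z with hE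
    have hS : ∀ (c : ℕ) (l : List (List ℕ)), (∀ w ∈ l, adm (c :: w)) → ∀ z : ℂ,
        (S (l.map (List.cons c)) fun w => F w z) =
        (S (l.map (List.cons c)) fun w => F w (z + 1)) + (z ^ (c + 1))⁻¹ * S l fun w => F w (z + 1) := by
      intro c l hl z
      rw [S_map, S_map]
      have h1 : (S l fun w => F (c :: w) z) =
          S l fun w => (F (c :: w) (z + 1) + (z ^ (c + 1))⁻¹ * F w (z + 1)) :=
        S_congr fun w hw => F_succ (hl w hw) z
      rw [h1, S_add]
      congr 1
      exact (S_hom l (fun w => F w (z + 1)) (AddMonoidHom.mulLeft _)).symm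
    have hq := adm_qs (a :: u) (b :: v) hu hv
    rw [qs_cons] at hq
    have hqa : ∀ w ∈ qs u (b :: v), adm (a :: w) := fun w hw => hq _ (by
      rw [List.mem_append]
      exact Or.inl (List.mem_map_of_mem hw))
    have hqb : ∀ w ∈ qs (a :: u) v, adm (b :: w) := fun w hw => hq _ (by
      rw [List.mem_append, List.mem_append]
      exact Or.inr (Or.inl (List.mem_map_of_mem hw)))
    have hqc : ∀ w ∈ qs u v, adm ((a + b + 1) :: w) := fun w hw => hq _ (by
      rw [List.mem_append, List.mem_append]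
      exact Or.inr (Or.inr (List.mem_map_of_mem hw)))
    have hper : ∀ z, E z = E (z + 1) := by
      intro z
      have h1 := F_succ hu z
      have h2 := F_succ hv z
      simp only [hE]
      rw [qs_cons, S_append, S_append, S_append, S_append, hS a _ hqa, hS b _ hqb, hS (a + b + 1) _ hqc,
        ← ih1, ← ih2, ← ih3, h1, h2]
      have h3 : (z ^ (a + b + 1 + 1))⁻¹ = (z ^ (a + 1))⁻¹ * (z ^ (b + 1))⁻¹ := by
        rw [← mul_inv, ← pow_add]
        congr 2
        omega
      rw [h3]
      ring
    have hperN : ∀ N : ℕ, E z = E (z + N) := by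
      intro N
      induction N with
      | zero => simp
      | succ N ih =>
        rw [ih, hper]
        congr 1
        push_cast
        ring
    have hlim : Tendsto (fun N : ℕ => E (z + N)) atTop (𝓝 0) := by
      have h1 := ((F_tail_ne hu (List.cons_ne_nil _ _) z).mul (F_tail_ne hv (List.cons_ne_nil _ _) z)).sub
        (S_tendsto (l := qs (a :: u) (b :: v)) (qs_ne_nil _ _ (List.cons_ne_nil _ _))
          (adm_qs _ _ hu hv) z)
      rwa [mul_zero, sub_zero] at h1
    have h1 : E z = 0 := by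
      refine tendsto_nhds_unique ?_ hlim
      refine tendsto_const_nhds.congr fun N => ?_
      exact hperN N
    exact sub_eq_zero.1 h1
termination_by u v => u.length + v.length

lemma Om_succ {z : ℂ} (hz : z ∈ Om) : z + 1 ∈ Om := by
  rw [mem_Om] at hz ⊢
  intro n h
  apply hz (n + 1)
  push_cast
  linear_combination h

/-- analyticity -/
theorem F_analytic : ∀ (w : List ℕ), adm w → ∀ {z : ℂ}, z ∈ Om → AnalyticAt ℂ (F w) z
  | [], _, z, _ => by
    have h1 : F [] = fun _ => (1 : ℂ) := rfl
    rw [h1]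
    exact analyticAt_const
  | a :: w, hadm, z, hz => by
    have hw : ∀ {z : ℂ}, z ∈ Om → AnalyticAt ℂ (F w) z := fun hz => F_analytic w (adm_tail hadm) hz
    have hbase : ∀ z : ℂ, 1 < z.re → AnalyticAt ℂ (F (a :: w)) z := by
      intro z hz
      have hopen : IsOpen {w : ℂ | 1 < w.re} := isOpen_lt continuous_const Complex.continuous_re
      have h1 : DifferentiableOn ℂ (fun z : ℂ => ∑' n : ℕ, ((z + n) ^ (a + 1))⁻¹ * F w (z + n + 1))
          {w : ℂ | 1 < w.re} := by
        refine Complex.differentiableOn_tsum_of_summable_norm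
          (hasSum_tel (x := 1) one_pos).summable ?_ hopen ?_
        · intro n t ht
          have ht' : 1 < t.re := ht
          have hn : (0 : ℝ) ≤ n := Nat.cast_nonneg n
          have h2 : t + (n : ℂ) ≠ 0 := by
            intro h
            have h3 := congrArg Complex.re h
            rw [Complex.add_re, Complex.natCast_re, Complex.zero_re] at h3
            linarith
          have h3 : t + n + 1 ∈ Om := by
            rw [mem_Om]
            intro m h
            have h4 := congrArg Complex.re h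
            simp only [Complex.add_re, Complex.natCast_re, Complex.one_re, Complex.neg_re] at h4
            have hm : (0 : ℝ) ≤ m := Nat.cast_nonneg m
            linarith
          have h6 : DifferentiableAt ℂ (fun t : ℂ => t + (n : ℂ)) t :=
            differentiableAt_id.add (differentiableAt_const _)
          have h7 : DifferentiableAt ℂ (fun t : ℂ => F w (t + n + 1)) t :=
            DifferentiableAt.comp (g := F w) (f := fun t : ℂ => t + n + 1) t
              (hw h3).differentiableAt (h6.add (differentiableAt_const _))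
          exact (((h6.pow (a + 1)).inv (pow_ne_zero _ h2)).mul h7).differentiableWithinAt
        · intro n t ht
          have ht' : 1 < t.re := ht
          have hn : (0 : ℝ) ≤ n := Nat.cast_nonneg n
          refine (term_bound' hadm ht n).trans ?_
          refine mul_le_mul_of_nonneg_left (inv_anti₀ (by positivity) ?_) (by norm_num)
          refine mul_le_mul ?_ ?_ (by positivity) (by linarith) <;> linarith
      exact (h1.analyticAt (hopen.mem_nhds hz))
    have hstep : ∀ N : ℕ, ∀ z : ℂ, z ∈ Om → 1 < z.re + N → AnalyticAt ℂ (F (a :: w)) z := by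
      intro N
      induction N with
      | zero =>
        intro z _ hz
        exact hbase z (by simpa using hz)
      | succ N ih =>
        intro z hzO hz
        have h1 : AnalyticAt ℂ (fun z => z + (1 : ℂ)) z := analyticAt_id.add analyticAt_const
        have h2 : AnalyticAt ℂ (F (a :: w)) (z + 1) := ih (z + 1) (Om_succ hzO) (by
          simp only [Complex.add_re, Complex.one_re]
          push_cast at hz
          linarith)
        have h3 : AnalyticAt ℂ (F w) (z + 1) := hw (Om_succ hzO)
        have hz0 : z ≠ 0 := by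
          have := mem_Om.1 hzO 0
          simpa using this
        have h4 : F (a :: w) = fun z => F (a :: w) (z + 1) + (z ^ (a + 1))⁻¹ * F w (z + 1) :=
          funext fun z => F_succ hadm z
        rw [h4]
        exact (h2.comp_of_eq h1 rfl).add (((analyticAt_id.pow _).inv (pow_ne_zero _ hz0)).mul
          (h3.comp_of_eq h1 rfl))
    obtain ⟨N, hN⟩ := exists_N z
    exact hstep N z hz hN

end Pool.Agent.X142.MZ
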