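import Mathlib
import Pool.Agent.X142.MZ.Fun
import Pool.Agent.X142.AZ.Germ

/-!
# Linear independence of multiple Hurwitz zeta functions over `ℂ(z)`
-/

set_option autoImplicit false

namespace Pool.Agent.X142.MZ

open Filter Topology
open Pool.Agent.X142.AZ

/-- the germ of `F w` -/
noncomputable def Fg (w : List ℕ) : GG := ((fun t : ℝ => F w (t : ℂ) : ℝ → ℂ) : GG)

lemma Fg_nil : Fg [] = 1 := rfl

lemma phi_aa (e : ℕ) : phi (aa e) = ((fun t : ℝ => ((t : ℂ) ^ e)⁻¹ : ℝ → ℂ) : GG) := by
  have h2 : phi (aa e) * phi (algebraMap (Polynomial ℂ) KK (Polynomial.X ^ e)) = 1 := by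
    rw [← map_mul, aa, map_pow, inv_mul_cancel₀ (pow_ne_zero _ aX_ne), map_one]
  have h3 : ((fun t : ℝ => ((t : ℂ) ^ e)⁻¹ : ℝ → ℂ) : GG) *
      phi (algebraMap (Polynomial ℂ) KK (Polynomial.X ^ e)) = 1 := by
    rw [phi_algebraMap, ph0_apply, ← Germ.coe_mul]
    refine Germ.coe_eq.2 ?_
    filter_upwards [eventually_gt_atTop 0] with t ht
    have h4 : (t : ℂ) ≠ 0 := by exact_mod_cast ht.ne'
    simp only [Pi.mul_apply, Polynomial.eval_pow, Polynomial.eval_X]
    exact inv_mul_cancel₀ (pow_ne_zero _ h4)
  exact (IsUnit.of_mul_eq_one_right _ h2).mul_right_cancel (h2.trans h3.symm)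

lemma Fg_cons {a : ℕ} {w : List ℕ} (hadm : adm (a :: w)) :
    Fg (a :: w) = sig (Fg (a :: w)) + phi (aa (a + 1)) * sig (Fg w) := by
  rw [phi_aa]
  refine Germ.coe_eq.2 (Eventually.of_forall fun t => ?_)
  have h1 := F_succ hadm (t : ℂ)
  have h2 : ((t + 1 : ℝ) : ℂ) = (t : ℂ) + 1 := by push_cast; rfl
  show F (a :: w) (t : ℂ) = F (a :: w) ((t + 1 : ℝ) : ℂ) + ((t : ℂ) ^ (a + 1))⁻¹ * F w ((t + 1 : ℝ) : ℂ)
  rw [h2]
  exact h1

/-- evaluation of formal combinations of words -/
noncomputable def E : (List ℕ →₀ KK) →+ GG :=
  Finsupp.liftAddHom fun w => (AddMonoidHom.mulRight (Fg w)).comp phi.toAddMonoidHom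

lemma E_single (w : List ℕ) (c : KK) : E (Finsupp.single w c) = phi c * Fg w := by
  unfold E
  rw [Finsupp.liftAddHom_apply_single]
  rfl

lemma E_smul (c : KK) (x : List ℕ →₀ KK) : E (c • x) = phi c * E x := by
  induction x using Finsupp.induction_linear with
  | zero => simp
  | add x y hx hy => rw [smul_add, map_add, hx, hy, map_add, mul_add]
  | single w d => rw [Finsupp.smul_single, E_single, E_single, smul_eq_mul, map_mul, mul_assoc]

/-- the shift of a word -/
noncomputable def Sw : List ℕ → (List ℕ →₀ KK)
  | [] => Finsupp.single [] 1
  | a :: w => Finsupp.single (a :: w) 1 - aa (a + 1) • Sw w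

lemma E_Sw : ∀ w : List ℕ, adm w → E (Sw w) = sig (Fg w)
  | [], _ => by
    rw [Sw, E_single, Fg_nil, map_one, map_one, mul_one]
  | a :: w, hadm => by
    rw [Sw, map_sub, E_single, map_one, one_mul, E_smul, E_Sw w (adm_tail hadm), sub_eq_iff_eq_add]
    exact Fg_cons hadm

lemma Sw_adm : ∀ (w : List ℕ), adm w → ∀ v, Sw w v ≠ 0 → adm v
  | [], _, v, hv => by
    rw [Sw, Finsupp.single_apply] at hv
    by_cases h : [] = v
    · rw [← h]
      exact trivial
    · rw [if_neg h] at hv
      exact absurd rfl hv
  | a :: w, hadm, v, hv => by
    rw [Sw, Finsupp.sub_apply, Finsupp.smul_apply, Finsupp.single_apply] at hv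
    by_cases h : a :: w = v
    · rw [← h]
      exact hadm
    · rw [if_neg h, zero_sub] at hv
      refine Sw_adm w (adm_tail hadm) v fun h2 => hv ?_
      rw [h2, smul_zero, neg_zero]

/-- the shift of formal combinations -/
noncomputable def SS : (List ℕ →₀ KK) →+ (List ℕ →₀ KK) :=
  Finsupp.liftAddHom fun w =>
    { toFun := fun c => tau c • Sw w
      map_zero' := by rw [map_zero, zero_smul]
      map_add' := fun c d => by rw [map_add, add_smul] }

lemma SS_single (w : List ℕ) (c : KK) : SS (Finsupp.single w c) = tau c • Sw w := by
  unfold SS
  rw [Finsupp.liftAddHom_apply_single]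
  rfl

lemma SS_sum (x : List ℕ →₀ KK) : SS x = ∑ w ∈ x.support, tau (x w) • Sw w := by
  conv_lhs => rw [← Finsupp.sum_single x]
  rw [Finsupp.sum, map_sum]
  exact Finset.sum_congr rfl fun w _ => SS_single w (x w)

lemma E_sum (x : List ℕ →₀ KK) : E x = ∑ w ∈ x.support, phi (x w) * Fg w := by
  conv_lhs => rw [← Finsupp.sum_single x]
  rw [Finsupp.sum, map_sum]
  exact Finset.sum_congr rfl fun w _ => E_single w (x w)

lemma E_SS (x : List ℕ →₀ KK) (hx : ∀ w ∈ x.support, adm w) : E (SS x) = sig (E x) := by
  rw [E_sum x, SS_sum, map_sum, map_sum]
  refine Finset.sum_congr rfl fun w hw => ?_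
  rw [E_smul, E_Sw w (hx w hw), map_mul, phi_tau]

lemma Sw_apply : ∀ (w v : List ℕ), w.length ≤ v.length → Sw w v = if w = v then 1 else 0
  | [], v, _ => by
    rw [Sw, Finsupp.single_apply]
  | a :: w, v, h => by
    have h1 : w.length < v.length := by
      rw [List.length_cons] at h
      omega
    have h2 := Sw_apply w v h1.le
    have h3 : w ≠ v := by
      rintro rfl
      omega
    rw [if_neg h3] at h2
    rw [Sw, Finsupp.sub_apply, Finsupp.smul_apply, h2, smul_zero, sub_zero, Finsupp.single_apply]

lemma Sw_cons_apply (a : ℕ) (w v : List ℕ) (h : w.length = v.length) :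
    Sw (a :: w) v = if w = v then -aa (a + 1) else 0 := by
  have h1 : a :: w ≠ v := by
    intro h2
    have := congrArg List.length h2
    rw [List.length_cons] at this
    omega
  rw [Sw, Finsupp.sub_apply, Finsupp.smul_apply, Sw_apply w v h.le, Finsupp.single_apply, if_neg h1, zero_sub]
  split_ifs <;> simp

lemma SS_apply (x : List ℕ →₀ KK) (v : List ℕ) : SS x v = ∑ w ∈ x.support, tau (x w) * Sw w v := by
  conv_lhs => rw [← Finsupp.sum_single x]
  rw [Finsupp.sum, map_sum, Finsupp.finsetSum_apply]
  refine Finset.sum_congr rfl fun w _ => ?_
  rw [SS_single, Finsupp.smul_apply, smul_eq_mul]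

/-- linear independence over `ℂ(z)` -/
theorem lin_indep : ∀ (n : ℕ) (x : List ℕ →₀ KK), (∀ w ∈ x.support, adm w) →
    (∀ w ∈ x.support, w.length < n) → E x = 0 → x = 0 := by
  classical
  intro n
  induction n with
  | zero =>
    intro x _ hx _
    rw [← Finsupp.support_eq_empty, Finset.eq_empty_iff_forall_notMem]
    intro w hw
    exact absurd (hx w hw) (Nat.not_lt_zero _)
  | succ n IH =>
    have key : ∀ (m : ℕ) (x : List ℕ →₀ KK), (∀ w ∈ x.support, adm w) →
        (∀ w ∈ x.support, w.length < n + 1) →
        (x.support.filter fun w => w.length = n).card ≤ m → E x = 0 → x = 0 := by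
      intro m
      induction m with
      | zero =>
        intro x hadm hx hc hE
        refine IH x hadm (fun w hw => ?_) hE
        have h1 := hx w hw
        have h2 : w.length ≠ n := by
          intro h
          have h3 := Finset.card_eq_zero.1 (Nat.le_zero.1 hc)
          have h4 : w ∈ x.support.filter fun w => w.length = n := Finset.mem_filter.2 ⟨hw, h⟩
          rw [h3] at h4
          exact absurd h4 (Finset.notMem_empty _)
        omega
      | succ m ih =>
        intro x hadm hx hc hE
        by_cases hemp : (x.support.filter fun w => w.length = n) = ∅
        · refine ih x hadm hx ?_ hE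
          rw [hemp]
          simp
        obtain ⟨w0, hw0⟩ := Finset.nonempty_iff_ne_empty.2 hemp
        rw [Finset.mem_filter] at hw0
        have hc0 : x w0 ≠ 0 := Finsupp.mem_support_iff.1 hw0.1
        exfalso
        set x' : List ℕ →₀ KK := (x w0)⁻¹ • x with hx'
        have hsupp : x'.support = x.support := by
          ext w
          rw [Finsupp.mem_support_iff, Finsupp.mem_support_iff, hx', Finsupp.smul_apply, smul_eq_mul]
          constructor
          · exact fun h h2 => h (by rw [h2, mul_zero])
          · exact fun h => mul_ne_zero (inv_ne_zero hc0) h
        have hE' : E x' = 0 := by rw [hx', E_smul, hE, mul_zero]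
        have h1w0 : x' w0 = 1 := by
          rw [hx', Finsupp.smul_apply, smul_eq_mul, inv_mul_cancel₀ hc0]
        have hlen : ∀ w ∈ x'.support, w.length < n + 1 := by
          rw [hsupp]
          exact hx
        have hadm' : ∀ w ∈ x'.support, adm w := by
          rw [hsupp]
          exact hadm
        have htop : ∀ v : List ℕ, n ≤ v.length → SS x' v = tau (x' v) := by
          intro v hv
          rw [SS_apply]
          have h1 : ∀ w ∈ x'.support, tau (x' w) * Sw w v = if w = v then tau (x' v) else 0 := by
            intro w hw
            have h2 := hlen w hw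
            rw [Sw_apply w v (by omega)]
            by_cases h3 : w = v
            · rw [if_pos h3, if_pos h3, mul_one, h3]
            · rw [if_neg h3, if_neg h3, mul_zero]
          rw [Finset.sum_congr rfl h1, Finset.sum_ite_eq']
          split_ifs with h4
          · rfl
          · rw [Finsupp.notMem_support_iff.1 h4, map_zero]
        have hy : SS x' - x' = 0 := by
          refine ih _ ?_ ?_ ?_ ?_
          · intro w hw
            rw [Finsupp.mem_support_iff, Finsupp.sub_apply] at hw
            by_cases h2 : x' w = 0
            · rw [h2, sub_zero, SS_apply] at hw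
              obtain ⟨u, hu, hu2⟩ := Finset.exists_ne_zero_of_sum_ne_zero hw
              exact Sw_adm u (hadm' u hu) w (right_ne_zero_of_mul hu2)
            · exact hadm' w (Finsupp.mem_support_iff.2 h2)
          · intro w hw
            by_contra h2
            rw [Finsupp.mem_support_iff, Finsupp.sub_apply, htop w (by omega)] at hw
            have h3 : x' w = 0 := by
              by_contra h4
              exact h2 (hlen w (Finsupp.mem_support_iff.2 h4))
            rw [h3, map_zero, sub_zero] at hw
            exact hw rfl
          · have h2 : ((SS x' - x').support.filter fun w => w.length = n) ⊆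
                (x.support.filter fun w => w.length = n).erase w0 := by
              intro w hw
              rw [Finset.mem_filter, Finsupp.mem_support_iff, Finsupp.sub_apply] at hw
              rw [htop w hw.2.ge] at hw
              rw [Finset.mem_erase, Finset.mem_filter]
              refine ⟨?_, ?_, hw.2⟩
              · rintro rfl
                rw [h1w0, map_one, sub_self] at hw
                exact hw.1 rfl
              · rw [← hsupp, Finsupp.mem_support_iff]
                intro h3
                rw [h3, map_zero, sub_zero] at hw
                exact hw.1 rfl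
            refine (Finset.card_le_card h2).trans ?_
            rw [Finset.card_erase_of_mem (Finset.mem_filter.2 hw0)]
            omega
          · rw [map_sub, E_SS x' hadm', hE', map_zero, sub_zero]
        have hfix : ∀ v : List ℕ, SS x' v = x' v := by
          intro v
          have := DFunLike.congr_fun hy v
          rw [Finsupp.sub_apply, Finsupp.zero_apply, sub_eq_zero] at this
          exact this
        have htau : ∀ v : List ℕ, n ≤ v.length → tau (x' v) = x' v := fun v hv => by
          rw [← htop v hv, hfix]
        cases w0 with
        | nil =>
          have hn : n = 0 := by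
            have := hw0.2
            simpa using this.symm
          subst hn
          have h2 : x' = Finsupp.single [] 1 := by
            ext v
            rw [Finsupp.single_apply]
            by_cases h3 : [] = v
            · rw [if_pos h3, ← h3, h1w0]
            · rw [if_neg h3]
              by_contra h4
              have h5 := hlen v (Finsupp.mem_support_iff.2 h4)
              have h6 : v = [] := List.length_eq_zero_iff.1 (by omega)
              exact h3 h6.symm
          rw [h2, E_single, Fg_nil, map_one, mul_one] at hE'
          exact one_ne_zero hE'
        | cons a0 v =>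
          have hv : v.length + 1 = n := by
            have := hw0.2
            rwa [List.length_cons] at this
          have hinjv : Set.InjOn (fun a : ℕ => a :: v) ((fun a : ℕ => a :: v) ⁻¹' ↑x'.support) :=
            fun a _ b _ h => (List.cons.inj h).1
          obtain ⟨A, hmemA⟩ : ∃ A : Finset ℕ, ∀ a, a ∈ A ↔ a :: v ∈ x'.support :=
            ⟨x'.support.preimage (fun a => a :: v) hinjv, fun a => Finset.mem_preimage⟩
          have hsum : SS x' v = tau (x' v) - ∑ a ∈ A, x' (a :: v) * aa (a + 1) := by
            rw [SS_apply]
            have h1 : ∀ w ∈ x'.support, tau (x' w) * Sw w v = (if w = v then tau (x' v) else 0) -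
                ∑ a ∈ A, if w = a :: v then x' (a :: v) * aa (a + 1) else 0 := by
              intro w hw
              rcases Nat.lt_or_ge v.length w.length with hlt | hge
              · have h2 := hlen w hw
                cases w with
                | nil => simp at hlt
                | cons b u =>
                  rw [List.length_cons] at hlt h2
                  have h3 : u.length = v.length := by omega
                  rw [Sw_cons_apply b u v h3]
                  have h4 : b :: u ≠ v := by
                    intro h
                    have := congrArg List.length h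
                    rw [List.length_cons] at this
                    omega
                  rw [if_neg h4, zero_sub]
                  by_cases h5 : u = v
                  · subst h5
                    rw [if_pos rfl, Finset.sum_eq_single b]
                    · rw [if_pos rfl, htau (b :: u) (by rw [List.length_cons]; omega)]
                      ring
                    · intro a _ hab
                      rw [if_neg]
                      intro h
                      exact hab (List.cons.inj h).1.symm
                    · intro h
                      exact absurd ((hmemA b).2 hw) h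
                  · rw [if_neg h5, mul_zero, Finset.sum_eq_zero, neg_zero]
                    intro a _
                    rw [if_neg]
                    intro h
                    exact h5 (List.cons.inj h).2
              · rw [Sw_apply w v hge]
                have h2 : ∑ a ∈ A, (if w = a :: v then x' (a :: v) * aa (a + 1) else 0) = 0 := by
                  refine Finset.sum_eq_zero fun a _ => ?_
                  rw [if_neg]
                  intro h
                  have := congrArg List.length h
                  rw [List.length_cons] at this
                  omega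
                rw [h2, sub_zero]
                by_cases h3 : w = v
                · rw [if_pos h3, if_pos h3, mul_one, h3]
                · rw [if_neg h3, if_neg h3, mul_zero]
            rw [Finset.sum_congr rfl h1, Finset.sum_sub_distrib, Finset.sum_ite_eq']
            congr 1
            · split_ifs with h4
              · rfl
              · rw [Finsupp.notMem_support_iff.1 h4, map_zero]
            · rw [Finset.sum_comm]
              refine Finset.sum_congr rfl fun a ha => ?_
              rw [Finset.sum_ite_eq', if_pos ((hmemA a).1 ha)]
          have heq : tau (x' v) - x' v = ∑ a : A, x' ((a : ℕ) :: v) * aa ((a : ℕ) + 1) := by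
            rw [Finset.sum_coe_sort A fun a => x' (a :: v) * aa (a + 1)]
            have h1 := hfix v
            rw [hsum] at h1
            linear_combination h1
          have h3 := H_aa (κ := A) (fun a => (a : ℕ) + 1) (fun a b h => Subtype.ext (by simpa using h))
            (fun a => by omega) (x' v) (fun a => x' ((a : ℕ) :: v))
            (fun a => htau _ (by rw [List.length_cons]; omega)) heq
            ⟨a0, (hmemA a0).2 (by rw [hsupp]; exact hw0.1)⟩
          rw [h1w0] at h3
          exact one_ne_zero h3
    intro x hadm hx hE
    exact key _ x hadm hx le_rfl hE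

/-- linear independence over `ℂ(z)` -/
theorem E_inj (x : List ℕ →₀ KK) (hadm : ∀ w ∈ x.support, adm w) (h : E x = 0) : x = 0 := by
  classical
  refine lin_indep (x.support.sup List.length + 1) x hadm (fun w hw => ?_) h
  exact Nat.lt_succ_of_le (Finset.le_sup (f := List.length) hw)

end Pool.Agent.X142.MZ
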