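import Mathlib
import Pool.Agent.X142.MZ.Words

/-!
# Regularization: products with values in admissible words are sums of products of admissible words
-/

set_option autoImplicit false

namespace Pool.Agent.X142.MZ

/-- formal combinations with rational coefficients -/
abbrev V : Type := List ℕ →₀ ℚ

/-- the product of words -/
noncomputable def pr (u v : List ℕ) : V := S (qs u v) fun w => Finsupp.single w 1

/-- the product -/
noncomputable def Mu : V →ₗ[ℚ] V →ₗ[ℚ] V :=
  Finsupp.linearCombination ℚ fun u => Finsupp.linearCombination ℚ fun v => pr u v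

lemma Mu_single (u v : List ℕ) : Mu (Finsupp.single u 1) (Finsupp.single v 1) = pr u v := by
  rw [Mu, Finsupp.linearCombination_single, one_smul, Finsupp.linearCombination_single, one_smul]

lemma Mu_S_left {α : Type} (l : List α) (f : α → V) (z : V) :
    Mu (S l f) z = S l fun w => Mu (f w) z := by
  have h := S_hom l f ((LinearMap.applyₗ z ∘ₗ Mu : V →ₗ[ℚ] V) : V →+ V)
  exact h

lemma Mu_S_right {α : Type} (l : List α) (f : α → V) (z : V) :
    Mu z (S l f) = S l fun w => Mu z (f w) := S_hom l f (Mu z : V →+ V)

lemma single_eq_smul (u : List ℕ) (c : ℚ) : (Finsupp.single u c : V) = c • Finsupp.single u 1 := by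
  rw [Finsupp.smul_single, smul_eq_mul, mul_one]

lemma Mu_comm (x y : V) : Mu x y = Mu y x := by
  induction x using Finsupp.induction_linear with
  | zero => rw [map_zero, LinearMap.zero_apply, map_zero]
  | add x x' hx hx' => rw [map_add, LinearMap.add_apply, map_add, hx, hx']
  | single u c =>
    induction y using Finsupp.induction_linear with
    | zero => rw [map_zero, map_zero, LinearMap.zero_apply]
    | add y y' hy hy' => rw [map_add, map_add, LinearMap.add_apply, hy, hy']
    | single v d =>
      rw [single_eq_smul u c, single_eq_smul v d]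
      simp only [map_smul, LinearMap.smul_apply]
      rw [Mu_single, Mu_single, pr, pr, qs_comm, smul_comm]

lemma Mu_assoc (x y z : V) : Mu (Mu x y) z = Mu x (Mu y z) := by
  induction x using Finsupp.induction_linear with
  | zero => simp
  | add x x' hx hx' => simp only [map_add, LinearMap.add_apply, hx, hx']
  | single u c =>
    induction y using Finsupp.induction_linear with
    | zero => simp
    | add y y' hy hy' => simp only [map_add, LinearMap.add_apply, hy, hy']
    | single v d =>
      induction z using Finsupp.induction_linear with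
      | zero => simp
      | add z z' hz hz' => simp only [map_add, hz, hz']
      | single w e =>
        rw [single_eq_smul u c, single_eq_smul v d, single_eq_smul w e]
        simp only [map_smul, LinearMap.smul_apply]
        rw [Mu_single, Mu_single, pr, pr, Mu_S_left, Mu_S_right]
        have h1 : (S (qs u v) fun x => Mu (Finsupp.single x 1) (Finsupp.single w 1)) =
            S (qs u v) fun x => S (qs x w) fun t => (Finsupp.single t 1 : V) :=
          S_congr fun x _ => Mu_single x w
        have h2 : (S (qs v w) fun x => Mu (Finsupp.single u 1) (Finsupp.single x 1)) =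
            S (qs v w) fun x => S (qs u x) fun t => (Finsupp.single t 1 : V) :=
          S_congr fun x _ => Mu_single u x
        rw [h1, h2, qs_assoc]

/-- the unit -/
noncomputable def one : V := Finsupp.single [] 1

lemma Mu_one (x : V) : Mu one x = x := by
  induction x using Finsupp.induction_linear with
  | zero => simp
  | add x y hx hy => rw [map_add, hx, hy]
  | single u c =>
    rw [single_eq_smul u c, map_smul, one, Mu_single, pr, qs_nil_left, S_single]

lemma Mu_one' (x : V) : Mu x one = x := by rw [Mu_comm, Mu_one]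

/-- removal of a last letter `0` -/
noncomputable def dw (w : List ℕ) : V := S (splits w) fun p => if p.2 = [0] then Finsupp.single p.1 1 else 0

/-- the derivation -/
noncomputable def dd : V →ₗ[ℚ] V := Finsupp.linearCombination ℚ dw

lemma dd_single (w : List ℕ) : dd (Finsupp.single w 1) = dw w := by
  rw [dd, Finsupp.linearCombination_single, one_smul]

lemma dd_S {α : Type} (l : List α) (f : α → V) : dd (S l f) = S l fun w => dd (f w) :=
  S_hom l f (dd : V →+ V)

lemma wt_pos {w : List ℕ} (hw : w ≠ []) : 0 < wt w := by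
  cases w with
  | nil => exact absurd rfl hw
  | cons a w => simp only [wt_cons]; omega

lemma splits_snd_nil {M : Type} [AddCommMonoid M] : ∀ (u : List ℕ) (g : List ℕ → M),
    (S (splits u) fun p => if p.2 = [] then g p.1 else 0) = g u
  | [], g => by rw [splits_nil, S_single, if_pos rfl]
  | a :: u, g => by
    rw [splits_cons, S_cons, S_map, if_neg (List.cons_ne_nil _ _), zero_add]
    exact splits_snd_nil u fun p => g (a :: p)

lemma splits_wt : ∀ (w : List ℕ), ∀ p ∈ splits w, wt p.1 + wt p.2 = wt w
  | [], p, hp => by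
    rw [splits_nil, List.mem_singleton] at hp
    simp [hp]
  | a :: w, p, hp => by
    rw [splits_cons, List.mem_cons, List.mem_map] at hp
    rcases hp with rfl | ⟨q, hq, rfl⟩
    · simp
    · have := splits_wt w q hq
      simp only [wt_cons]
      omega

lemma cnt {M : Type} [AddCommMonoid M] (p q : List ℕ) (X : M) :
    (S (qs p q) fun w => if w = [0] then X else 0) =
      (if p = [] then (if q = [0] then X else 0) else 0) + (if q = [] then (if p = [0] then X else 0) else 0) := by
  by_cases hp : p = []
  · subst hp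
    rw [qs_nil_left, S_single, if_pos rfl, if_neg (by simp : ([] : List ℕ) ≠ [0]), ite_self, add_zero]
  · by_cases hq : q = []
    · subst hq
      rw [qs_nil_right, S_single, if_neg hp, if_pos rfl, zero_add]
    · rw [if_neg hp, if_neg hq, add_zero]
      have h1 : (S (qs p q) fun w => if w = [0] then X else 0) = S (qs p q) fun _ => 0 := by
        refine S_congr fun w hw => if_neg ?_
        rintro rfl
        have h2 := wt_qs p q _ hw
        have h3 := wt_pos hp
        have h4 := wt_pos hq
        simp only [wt_cons, wt_nil] at h2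
        omega
      rw [h1, S_zero]

/-- Leibniz rule -/
lemma dd_pr (u v : List ℕ) : dd (pr u v) = Mu (dw u) (Finsupp.single v 1) + Mu (Finsupp.single u 1) (dw v) := by
  classical
  have h0 : dd (pr u v) = S (qs u v) fun w => S (splits w) fun p =>
      if p.2 = [0] then (Finsupp.single p.1 1 : V) else 0 := by
    rw [pr, dd_S]
    exact S_congr fun w _ => dd_single w
  have h1 := coprod u v fun w w' => if w' = [0] then (Finsupp.single w 1 : V) else 0
  rw [h0, h1]
  have h2 : ∀ p q : List ℕ × List ℕ, (S (qs p.1 q.1) fun w => S (qs p.2 q.2) fun w' =>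
      if w' = [0] then (Finsupp.single w 1 : V) else 0) =
      (if p.2 = [] then (if q.2 = [0] then pr p.1 q.1 else 0) else 0) +
      (if q.2 = [] then (if p.2 = [0] then pr p.1 q.1 else 0) else 0) := by
    intro p q
    have h3 : (S (qs p.1 q.1) fun w => S (qs p.2 q.2) fun w' =>
        if w' = [0] then (Finsupp.single w 1 : V) else 0) =
        S (qs p.1 q.1) fun w => ((if p.2 = [] then (if q.2 = [0] then (Finsupp.single w 1 : V) else 0) else 0) +
          (if q.2 = [] then (if p.2 = [0] then (Finsupp.single w 1 : V) else 0) else 0)) :=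
      S_congr fun w _ => cnt _ _ _
    rw [h3, S_add]
    congr 1
    · split_ifs
      · rfl
      · exact S_zero _
      · exact S_zero _
    · split_ifs
      · rfl
      · exact S_zero _
      · exact S_zero _
  have h3 : (S (splits u) fun p => S (splits v) fun q => S (qs p.1 q.1) fun w => S (qs p.2 q.2) fun w' =>
      if w' = [0] then (Finsupp.single w 1 : V) else 0) =
      S (splits u) fun p => ((if p.2 = [] then (S (splits v) fun q => if q.2 = [0] then pr p.1 q.1 else 0) else 0) +
        (if p.2 = [0] then pr p.1 v else 0)) := by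
    refine S_congr fun p _ => ?_
    have h4 : (S (splits v) fun q => S (qs p.1 q.1) fun w => S (qs p.2 q.2) fun w' =>
        if w' = [0] then (Finsupp.single w 1 : V) else 0) =
        S (splits v) fun q => ((if p.2 = [] then (if q.2 = [0] then pr p.1 q.1 else 0) else 0) +
          (if q.2 = [] then (if p.2 = [0] then pr p.1 q.1 else 0) else 0)) := S_congr fun q _ => h2 p q
    rw [h4, S_add, splits_snd_nil v fun w => if p.2 = [0] then pr p.1 w else 0]
    congr 1
    by_cases hp : p.2 = []
    · simp only [if_pos hp]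
    · simp only [if_neg hp]
      exact S_zero _
  rw [h3, S_add, splits_snd_nil u fun w => S (splits v) fun q => if q.2 = [0] then pr w q.1 else 0, add_comm]
  congr 1
  · rw [dw, Mu_S_left]
    refine S_congr fun p _ => ?_
    split_ifs
    · exact (Mu_single _ _).symm
    · rw [map_zero, LinearMap.zero_apply]
  · rw [dw, Mu_S_right]
    refine S_congr fun p _ => ?_
    split_ifs
    · exact (Mu_single _ _).symm
    · rw [map_zero]

lemma dd_Mu (x y : V) : dd (Mu x y) = Mu (dd x) y + Mu x (dd y) := by
  induction x using Finsupp.induction_linear with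
  | zero => simp
  | add x x' hx hx' =>
    simp only [map_add, LinearMap.add_apply, hx, hx']
    abel
  | single u c =>
    induction y using Finsupp.induction_linear with
    | zero => simp
    | add y y' hy hy' =>
      simp only [map_add, hy, hy']
      abel
    | single v d =>
      rw [single_eq_smul u c, single_eq_smul v d]
      simp only [map_smul, LinearMap.smul_apply]
      rw [Mu_single, dd_single, dd_single, dd_pr, smul_add, smul_add]

/-- the letter `0` -/
noncomputable def yy : V := Finsupp.single [0] 1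

lemma dd_one : dd one = 0 := by
  rw [one, dd_single, dw, splits_nil, S_single, if_neg (by simp)]

lemma dd_yy : dd yy = one := by
  rw [yy, dd_single, dw, splits_cons, S_cons, S_map, splits_nil, S_single, if_pos rfl, if_neg (by simp),
    add_zero]
  rfl

/-- powers -/
noncomputable def yp : ℕ → V
  | 0 => one
  | n + 1 => Mu yy (yp n)

lemma dd_yp : ∀ n : ℕ, dd (yp (n + 1)) = ((n : ℚ) + 1) • yp n
  | 0 => by
    show dd (Mu yy one) = (((0 : ℕ) : ℚ) + 1) • one
    rw [Mu_one', dd_yy]
    simp
  | n + 1 => by
    rw [yp, dd_Mu, dd_yy, Mu_one, dd_yp n, map_smul]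
    show yp (n + 1) + ((n : ℚ) + 1) • yp (n + 1) = _
    push_cast
    module

/-- coefficients -/
noncomputable def cf (j : ℕ) : ℚ := (-1) ^ j / (j.factorial : ℚ)

lemma cf_zero : cf 0 = 1 := by simp [cf]

lemma cf_succ (j : ℕ) : cf (j + 1) * ((j : ℚ) + 1) = -cf j := by
  unfold cf
  rw [Nat.factorial_succ]
  have h1 : ((j.factorial : ℕ) : ℚ) ≠ 0 := by exact_mod_cast j.factorial_ne_zero
  have h2 : ((j : ℚ) + 1) ≠ 0 := by positivity
  push_cast
  rw [pow_succ]
  field_simp

/-- the regularization -/
noncomputable def reg (N : ℕ) (x : V) : V := ∑ j ∈ Finset.range N, cf j • Mu (yp j) ((dd ^ j) x)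

lemma reg_succ (N : ℕ) (x : V) : reg (N + 1) x = reg N x + cf N • Mu (yp N) ((dd ^ N) x) :=
  Finset.sum_range_succ _ _

lemma dd_pow_succ (N : ℕ) (x : V) : (dd ^ (N + 1)) x = dd ((dd ^ N) x) := by
  rw [pow_succ', Module.End.mul_apply]

lemma dd_reg (x : V) : ∀ N : ℕ, dd (reg (N + 1) x) = cf N • Mu (yp N) ((dd ^ (N + 1)) x)
  | 0 => by
    rw [reg, Finset.sum_range_one, cf_zero, one_smul, one_smul, pow_zero, zero_add, pow_one]
    show dd (Mu one x) = Mu one (dd x)
    rw [Mu_one, Mu_one]
  | N + 1 => by
    rw [reg_succ, map_add, dd_reg x N, map_smul, dd_Mu, dd_yp, map_smul, LinearMap.smul_apply, smul_add,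
      smul_smul, cf_succ, ← dd_pow_succ]
    module

lemma sub_reg (x : V) : ∀ N : ℕ, ∃ q, x - reg (N + 1) x = Mu yy q
  | 0 => by
    refine ⟨0, ?_⟩
    rw [reg, Finset.sum_range_one, cf_zero, one_smul, pow_zero, map_zero]
    show x - Mu one x = 0
    rw [Mu_one, sub_self]
  | N + 1 => by
    obtain ⟨q, hq⟩ := sub_reg x N
    refine ⟨q - cf (N + 1) • Mu (yp N) ((dd ^ (N + 1)) x), ?_⟩
    rw [reg_succ, ← sub_sub, hq, map_sub, map_smul, ← Mu_assoc]
    rfl

lemma dd_pow_yy (q : V) : ∀ j : ℕ, (dd ^ (j + 1)) (Mu yy q) =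
    Mu yy ((dd ^ (j + 1)) q) + ((j : ℚ) + 1) • (dd ^ j) q
  | 0 => by
    rw [zero_add, pow_one, pow_zero, dd_Mu, dd_yy, Mu_one]
    simp [add_comm]
  | j + 1 => by
    rw [dd_pow_succ, dd_pow_yy q j, map_add, dd_Mu, dd_yy, Mu_one, map_smul, ← dd_pow_succ, ← dd_pow_succ]
    push_cast
    module

lemma reg_yy (q : V) : ∀ N : ℕ, reg (N + 1) (Mu yy q) = cf N • Mu (yp (N + 1)) ((dd ^ N) q)
  | 0 => by
    rw [reg, Finset.sum_range_one, cf_zero, one_smul, one_smul, pow_zero]
    show Mu one (Mu yy q) = Mu (Mu yy one) q
    rw [Mu_one, Mu_one']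
  | N + 1 => by
    rw [reg_succ, reg_yy q N, dd_pow_yy, map_add, smul_add, map_smul, smul_smul, cf_succ]
    have h1 : Mu (yp (N + 1)) (Mu yy ((dd ^ (N + 1)) q)) = Mu (yp (N + 2)) ((dd ^ (N + 1)) q) := by
      rw [← Mu_assoc, Mu_comm (yp (N + 1)) yy]
      rfl
    rw [h1]
    module

lemma reg_ker {x : V} (hx : dd x = 0) (N : ℕ) : reg (N + 1) x = x := by
  induction N with
  | zero =>
    rw [reg, Finset.sum_range_one, cf_zero, one_smul, pow_zero]
    exact Mu_one x
  | succ N ih =>
    have h1 : (dd ^ (N + 1)) x = 0 := by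
      rw [pow_succ, Module.End.mul_apply, hx, map_zero]
    rw [reg_succ, ih, h1, map_zero, smul_zero, add_zero]

lemma eq_zero_of {x q : V} (hx : dd x = 0) (hq : x = Mu yy q) {N : ℕ} (hN : (dd ^ N) q = 0) : x = 0 := by
  rw [← reg_ker hx N, hq, reg_yy, hN, map_zero, smul_zero]

/-! ### Weights -/

/-- combinations of words of weight `n` -/
noncomputable def W (n : ℕ) : Submodule ℚ V := Finsupp.supported ℚ ℚ {w | wt w = n}

lemma single_mem_W {w : List ℕ} {n : ℕ} (h : wt w = n) : (Finsupp.single w 1 : V) ∈ W n :=
  Finsupp.single_mem_supported ℚ 1 h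

lemma W_span (n : ℕ) : W n = Submodule.span ℚ ((fun w => (Finsupp.single w 1 : V)) '' {w | wt w = n}) :=
  Finsupp.supported_eq_span_single ℚ _

lemma S_mem {P : Submodule ℚ V} {α : Type} {l : List α} {f : α → V} (h : ∀ x ∈ l, f x ∈ P) : S l f ∈ P := by
  induction l with
  | nil => rw [S_nil]; exact P.zero_mem
  | cons a l ih =>
    rw [S_cons]
    exact P.add_mem (h a (List.mem_cons_self ..)) (ih fun x hx => h x (List.mem_cons_of_mem _ hx))

lemma Mu_mem_W {m n : ℕ} {x y : V} (hx : x ∈ W m) (hy : y ∈ W n) : Mu x y ∈ W (m + n) := by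
  rw [W_span] at hx
  induction hx using Submodule.span_induction with
  | mem x hx =>
    obtain ⟨u, hu, rfl⟩ := hx
    rw [W_span] at hy
    induction hy using Submodule.span_induction with
    | mem y hy =>
      obtain ⟨v, hv, rfl⟩ := hy
      simp only [Mu_single]
      refine S_mem fun w hw => single_mem_W ?_
      rw [wt_qs u v w hw]
      exact congrArg₂ (· + ·) hu hv
    | zero => rw [map_zero]; exact Submodule.zero_mem _
    | add y z _ _ hy hz => rw [map_add]; exact Submodule.add_mem _ hy hz
    | smul c y _ hy => rw [map_smul]; exact Submodule.smul_mem _ _ hy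
  | zero => rw [map_zero, LinearMap.zero_apply]; exact Submodule.zero_mem _
  | add y z _ _ hy hz => rw [map_add, LinearMap.add_apply]; exact Submodule.add_mem _ hy hz
  | smul c y _ hy => rw [map_smul, LinearMap.smul_apply]; exact Submodule.smul_mem _ _ hy

lemma dd_mem_W {n : ℕ} {x : V} (hx : x ∈ W (n + 1)) : dd x ∈ W n := by
  rw [W_span] at hx
  induction hx using Submodule.span_induction with
  | mem x hx =>
    obtain ⟨u, hu, rfl⟩ := hx
    simp only [dd_single]
    refine S_mem fun p hp => ?_
    split_ifs with h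
    · refine single_mem_W ?_
      have h1 := splits_wt u p hp
      rw [h] at h1
      simp only [wt_cons, wt_nil] at h1
      have h2 : wt u = n + 1 := hu
      omega
    · exact Submodule.zero_mem _
  | zero => rw [map_zero]; exact Submodule.zero_mem _
  | add y z _ _ hy hz => rw [map_add]; exact Submodule.add_mem _ hy hz
  | smul c y _ hy => rw [map_smul]; exact Submodule.smul_mem _ _ hy

lemma dd_W_zero {x : V} (hx : x ∈ W 0) : dd x = 0 := by
  rw [W_span] at hx
  induction hx using Submodule.span_induction with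
  | mem x hx =>
    obtain ⟨u, hu, rfl⟩ := hx
    have h1 : u = [] := by
      by_contra h
      have h2 := wt_pos h
      have h3 : wt u = 0 := hu
      omega
    subst h1
    exact dd_one
  | zero => rw [map_zero]
  | add y z _ _ hy hz => rw [map_add, hy, hz, add_zero]
  | smul c y _ hy => rw [map_smul, hy, smul_zero]

lemma dd_pow_mem : ∀ (j : ℕ) {n : ℕ} {x : V}, x ∈ W (n + j) → (dd ^ j) x ∈ W n
  | 0, n, x, hx => by simpa using hx
  | j + 1, n, x, hx => by
    rw [pow_succ, Module.End.mul_apply]
    exact dd_pow_mem j (dd_mem_W hx)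

lemma dd_pow_eq_zero {n : ℕ} {x : V} (hx : x ∈ W n) : (dd ^ (n + 1)) x = 0 := by
  rw [dd_pow_succ]
  apply dd_W_zero
  exact dd_pow_mem n (by rwa [zero_add])

lemma yp_mem : ∀ j : ℕ, yp j ∈ W j
  | 0 => single_mem_W rfl
  | j + 1 => by
    have h1 : yy ∈ W 1 := single_mem_W rfl
    have h2 := Mu_mem_W h1 (yp_mem j)
    rw [yp]
    rwa [add_comm] at h2

lemma reg_mem {n : ℕ} {x : V} (hx : x ∈ W n) : reg (n + 1) x ∈ W n := by
  refine Submodule.sum_mem _ fun j hj => Submodule.smul_mem _ _ ?_
  have hj' : j ≤ n := Nat.lt_succ_iff.1 (Finset.mem_range.1 hj)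
  have h1 : (dd ^ j) x ∈ W (n - j) := dd_pow_mem j (by rwa [Nat.sub_add_cancel hj'])
  have h2 := Mu_mem_W (yp_mem j) h1
  rwa [Nat.add_sub_cancel' hj'] at h2

lemma exists_nilp (q : V) : ∃ N, (dd ^ N) q = 0 := by
  induction q using Finsupp.induction_linear with
  | zero => exact ⟨0, map_zero _⟩
  | add x y hx hy =>
    obtain ⟨N, hN⟩ := hx
    obtain ⟨M, hM⟩ := hy
    refine ⟨N + M, ?_⟩
    rw [map_add]
    have h1 : (dd ^ (N + M)) x = 0 := by
      rw [add_comm, pow_add, Module.End.mul_apply, hN, map_zero]
    have h2 : (dd ^ (N + M)) y = 0 := by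
      rw [pow_add, Module.End.mul_apply, hM, map_zero]
    rw [h1, h2, add_zero]
  | single w c =>
    refine ⟨wt w + 1, ?_⟩
    rw [single_eq_smul, map_smul, dd_pow_eq_zero (single_mem_W rfl), smul_zero]

/-! ### Admissible words -/

lemma not_adm_append : ∀ v : List ℕ, ¬ adm (v ++ [0])
  | [], h => by
    have : (1 : ℕ) ≤ 0 := h
    omega
  | a :: v, h => not_adm_append v (adm_tail h)

lemma adm_or (w : List ℕ) : adm w ∨ ∃ v, w = v ++ [0] := by
  induction w with
  | nil => exact Or.inl trivial
  | cons a w ih =>
    cases w with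
    | nil =>
      rcases Nat.eq_zero_or_pos a with rfl | h
      · exact Or.inr ⟨[], rfl⟩
      · exact Or.inl h
    | cons b w =>
      rcases ih with h | ⟨v, hv⟩
      · exact Or.inl h
      · exact Or.inr ⟨a :: v, by rw [hv]; rfl⟩

lemma dw_apply : ∀ (w v : List ℕ), dw w v = if w = v ++ [0] then 1 else 0
  | [], v => by
    rw [dw, splits_nil, S_single, if_neg (by simp), Finsupp.zero_apply, if_neg]
    intro h
    have := congrArg List.length h
    simp at this
  | a :: w, [] => by
    rw [dw, splits_cons, S_cons, S_map, Finsupp.add_apply]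
    have h1 : (S (splits w) fun p : List ℕ × List ℕ => if p.2 = [0] then (Finsupp.single (a :: p.1) 1 : V) else 0) [] = 0 := by
      have h2 := S_hom (splits w) (fun p : List ℕ × List ℕ => if p.2 = [0] then (Finsupp.single (a :: p.1) 1 : V) else 0)
        (Finsupp.applyAddHom [])
      have h3 : (S (splits w) fun p : List ℕ × List ℕ => if p.2 = [0] then (Finsupp.single (a :: p.1) 1 : V) else 0) [] =
          S (splits w) fun _ => (0 : ℚ) := by
        refine h2.trans (S_congr fun p _ => ?_)
        show (if p.2 = [0] then (Finsupp.single (a :: p.1) 1 : V) else 0) [] = 0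
        split_ifs
        · rw [Finsupp.single_apply, if_neg (List.cons_ne_nil _ _)]
        · rfl
      rw [h3, S_zero]
    rw [h1, add_zero, List.nil_append]
    by_cases h : a :: w = [0]
    · rw [if_pos h, if_pos h, Finsupp.single_eq_same]
    · rw [if_neg h, if_neg h]
      rfl
  | a :: w, b :: v => by
    rw [dw, splits_cons, S_cons, S_map, Finsupp.add_apply]
    have h0 : (if a :: w = [0] then (Finsupp.single [] 1 : V) else 0) (b :: v) = 0 := by
      split_ifs
      · rw [Finsupp.single_apply, if_neg (List.cons_ne_nil _ _).symm]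
      · rfl
    have h2 := S_hom (splits w) (fun p : List ℕ × List ℕ => if p.2 = [0] then (Finsupp.single (a :: p.1) 1 : V) else 0)
        (Finsupp.applyAddHom (b :: v))
    have h3 := S_hom (splits w) (fun p : List ℕ × List ℕ => if p.2 = [0] then (Finsupp.single p.1 1 : V) else 0)
        (Finsupp.applyAddHom v)
    have h4 : (S (splits w) fun p : List ℕ × List ℕ => if p.2 = [0] then (Finsupp.single (a :: p.1) 1 : V) else 0) (b :: v) =
        if a = b then dw w v else 0 := by
      refine h2.trans ?_
      by_cases hab : a = b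
      · subst hab
        rw [if_pos rfl]
        refine Eq.trans (S_congr fun p _ => ?_) h3.symm
        show (if p.2 = [0] then (Finsupp.single (a :: p.1) 1 : V) else 0) (a :: v) =
          (if p.2 = [0] then (Finsupp.single p.1 1 : V) else 0) v
        split_ifs
        · rw [Finsupp.single_apply, Finsupp.single_apply]
          by_cases hp : p.1 = v
          · rw [if_pos hp, if_pos (by rw [hp])]
          · rw [if_neg hp, if_neg fun h => hp (List.cons.inj h).2]
        · rfl
      · rw [if_neg hab]
        have h5 : (S (splits w) fun p : List ℕ × List ℕ =>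
            (Finsupp.applyAddHom (b :: v)) (if p.2 = [0] then (Finsupp.single (a :: p.1) 1 : V) else 0)) =
            S (splits w) fun _ => (0 : ℚ) := by
          refine S_congr fun p _ => ?_
          show (if p.2 = [0] then (Finsupp.single (a :: p.1) 1 : V) else 0) (b :: v) = 0
          split_ifs
          · rw [Finsupp.single_apply, if_neg fun h => hab (List.cons.inj h).1]
          · rfl
        rw [h5, S_zero]
    rw [h0, zero_add, h4, dw_apply w v, List.cons_append]
    by_cases hab : a = b
    · subst hab
      rw [if_pos rfl]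
      by_cases hw : w = v ++ [0]
      · rw [if_pos hw, if_pos (by rw [hw])]
      · rw [if_neg hw, if_neg fun h => hw (List.cons.inj h).2]
    · rw [if_neg hab, if_neg fun h => hab (List.cons.inj h).1]

lemma dd_apply (x : V) (v : List ℕ) : dd x v = x (v ++ [0]) := by
  induction x using Finsupp.induction_linear with
  | zero => simp
  | add x y hx hy => rw [map_add, Finsupp.add_apply, hx, hy, Finsupp.add_apply]
  | single w c =>
    rw [single_eq_smul, map_smul, dd_single, Finsupp.smul_apply, Finsupp.smul_apply, dw_apply,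
      Finsupp.single_apply]

lemma adm_of_dd {x : V} (hx : dd x = 0) : ∀ w ∈ x.support, adm w := by
  intro w hw
  rcases adm_or w with h | ⟨v, rfl⟩
  · exact h
  · have h1 := dd_apply x v
    rw [hx, Finsupp.zero_apply] at h1
    exact absurd h1.symm (Finsupp.mem_support_iff.1 hw)

lemma dd_of_adm {x : V} (hx : ∀ w ∈ x.support, adm w) : dd x = 0 := by
  ext v
  rw [dd_apply, Finsupp.zero_apply]
  by_contra h
  exact not_adm_append v (hx _ (Finsupp.mem_support_iff.2 h))

/-- products of weight `n` -/
noncomputable def Dec (n : ℕ) : Submodule ℚ V :=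
  Submodule.span ℚ {x | ∃ u v, u ≠ [] ∧ v ≠ [] ∧ wt u + wt v = n ∧ x = pr u v}

/-- products of admissible words, of weight `n` -/
noncomputable def Dec0 (n : ℕ) : Submodule ℚ V :=
  Submodule.span ℚ {x | ∃ u v, adm u ∧ adm v ∧ u ≠ [] ∧ v ≠ [] ∧ wt u + wt v = n ∧ x = pr u v}

lemma dd_Dec0 {n : ℕ} {x : V} (hx : x ∈ Dec0 n) : dd x = 0 := by
  unfold Dec0 at hx
  induction hx using Submodule.span_induction with
  | mem x hx =>
    obtain ⟨u, v, hu, hv, -, -, -, rfl⟩ := hx
    have h1 : ∀ w, adm w → dw w = 0 := by
      intro w hw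
      rw [← dd_single]
      apply dd_of_adm
      intro w' hw'
      have := Finsupp.support_single_subset hw'
      rw [Finset.mem_singleton] at this
      rw [this]
      exact hw
    rw [dd_pr, h1 u hu, h1 v hv]
    simp
  | zero => rw [map_zero]
  | add y z _ _ hy hz => rw [map_add, hy, hz, add_zero]
  | smul c y _ hy => rw [map_smul, hy, smul_zero]

lemma Mu_mem_Dec0 {m n : ℕ} (hm : 0 < m) (hn : 0 < n) {x y : V} (hx : x ∈ W m) (hy : y ∈ W n)
    (hdx : dd x = 0) (hdy : dd y = 0) : Mu x y ∈ Dec0 (m + n) := by
  have hx1 := adm_of_dd hdx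
  have hy1 := adm_of_dd hdy
  have hx2 : ∀ w ∈ x.support, wt w = m := fun w hw => (Finsupp.mem_supported ℚ x).1 hx hw
  have hy2 : ∀ w ∈ y.support, wt w = n := fun w hw => (Finsupp.mem_supported ℚ y).1 hy hw
  have hxs : x = ∑ u ∈ x.support, x u • (Finsupp.single u 1 : V) := by
    conv_lhs => rw [← Finsupp.sum_single x]
    exact Finset.sum_congr rfl fun w _ => single_eq_smul w _
  have hys : y = ∑ u ∈ y.support, y u • (Finsupp.single u 1 : V) := by
    conv_lhs => rw [← Finsupp.sum_single y]
    exact Finset.sum_congr rfl fun w _ => single_eq_smul w _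
  rw [hxs, map_sum, LinearMap.sum_apply]
  refine Submodule.sum_mem _ fun u hu => ?_
  rw [map_smul, LinearMap.smul_apply]
  refine Submodule.smul_mem _ _ ?_
  rw [hys, map_sum]
  refine Submodule.sum_mem _ fun v hv => ?_
  rw [map_smul]
  refine Submodule.smul_mem _ _ ?_
  rw [Mu_single]
  refine Submodule.subset_span ⟨u, v, hx1 u hu, hy1 v hv, ?_, ?_, ?_, rfl⟩
  · rintro rfl
    have := hx2 _ hu
    rw [wt_nil] at this
    omega
  · rintro rfl
    have := hy2 _ hv
    rw [wt_nil] at this
    omega
  · rw [hx2 u hu, hy2 v hv]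

/-- the key lemma -/
theorem Dec_adm {n : ℕ} {x : V} (hx : x ∈ Dec n) (hadm : ∀ w ∈ x.support, adm w) : x ∈ Dec0 n := by
  have key : ∃ x' ∈ Dec0 n, ∃ q, x - x' = Mu yy q := by
    clear hadm
    unfold Dec at hx
    induction hx using Submodule.span_induction with
    | mem x hx =>
      obtain ⟨u, v, hu, hv, huv, rfl⟩ := hx
      set U := reg (wt u + 1) (Finsupp.single u 1) with hU
      set U' := reg (wt v + 1) (Finsupp.single v 1) with hU'
      obtain ⟨q1, hq1⟩ := sub_reg (Finsupp.single u 1) (wt u)
      obtain ⟨q2, hq2⟩ := sub_reg (Finsupp.single v 1) (wt v)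
      have hUW : U ∈ W (wt u) := reg_mem (single_mem_W rfl)
      have hUW' : U' ∈ W (wt v) := reg_mem (single_mem_W rfl)
      have hdU : dd U = 0 := by
        rw [hU, dd_reg, dd_pow_eq_zero (single_mem_W rfl), map_zero, smul_zero]
      have hdU' : dd U' = 0 := by
        rw [hU', dd_reg, dd_pow_eq_zero (single_mem_W rfl), map_zero, smul_zero]
      refine ⟨Mu U U', ?_, Mu q1 (Finsupp.single v 1) + Mu U q2, ?_⟩
      · rw [← huv]
        exact Mu_mem_Dec0 (wt_pos hu) (wt_pos hv) hUW hUW' hdU hdU'
      · have h1 : pr u v - Mu U U' = Mu (Finsupp.single u 1 - U) (Finsupp.single v 1) +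
            Mu U (Finsupp.single v 1 - U') := by
          rw [map_sub, LinearMap.sub_apply, map_sub, Mu_single]
          abel
        rw [h1, hq1, hq2, map_add, Mu_assoc, ← Mu_assoc yy U q2, ← Mu_assoc U yy q2, Mu_comm U yy]
    | zero => exact ⟨0, Submodule.zero_mem _, 0, by simp⟩
    | add y z _ _ hy hz =>
      obtain ⟨y', hy', q, hq⟩ := hy
      obtain ⟨z', hz', q', hq'⟩ := hz
      refine ⟨y' + z', Submodule.add_mem _ hy' hz', q + q', ?_⟩
      rw [map_add, ← hq, ← hq']
      abel
    | smul c y _ hy =>
      obtain ⟨y', hy', q, hq⟩ := hy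
      refine ⟨c • y', Submodule.smul_mem _ _ hy', c • q, ?_⟩
      rw [map_smul, ← hq, smul_sub]
  obtain ⟨x', hx', q, hq⟩ := key
  obtain ⟨N, hN⟩ := exists_nilp q
  have h1 : dd (x - x') = 0 := by rw [map_sub, dd_of_adm hadm, dd_Dec0 hx', sub_zero]
  have h2 := eq_zero_of h1 hq hN
  rw [sub_eq_zero.1 h2]
  exact hx'

end Pool.Agent.X142.MZ
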