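import Mathlib
import Pool.Agent.X142.MZ.Ind
import Pool.Agent.X142.MH.Few

/-!
# Near relations between multiple Hurwitz zeta values
-/

set_option autoImplicit false

namespace Pool.Agent.X142.MZ

open Filter Topology MvPolynomial NumberField
open Pool.Agent.X142.AZ (Om mem_Om)

/-- the multiple Hurwitz zeta function -/
noncomputable def mhz : List ℕ → ℂ → ℂ
  | [], _ => 1
  | s :: w, z => ∑' n : ℕ, ((z + n) ^ s)⁻¹ * mhz w (z + n + 1)

/-- admissible indices: positive entries, the last one is not `1` -/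
def Adm (s : List ℕ) : Prop := (∀ a ∈ s, 1 ≤ a) ∧ s.getLast? ≠ some 1

lemma mhz_map : ∀ (w : List ℕ) (z : ℂ), mhz (w.map (· + 1)) z = F w z
  | [], _ => rfl
  | a :: w, z => by
    rw [List.map_cons, mhz, F_cons]
    exact tsum_congr fun n => by rw [mhz_map w]

/-- the word of an index -/
def wd (s : List ℕ) : List ℕ := s.map (· - 1)

lemma wd_map {s : List ℕ} (hs : ∀ a ∈ s, 1 ≤ a) : (wd s).map (· + 1) = s := by
  unfold wd
  rw [List.map_map]
  conv_rhs => rw [← List.map_id s]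
  exact List.map_congr_left fun a ha => by
    have := hs a ha
    simp only [Function.comp_apply, id_eq]
    omega

lemma mhz_eq {s : List ℕ} (hs : ∀ a ∈ s, 1 ≤ a) (z : ℂ) : mhz s z = F (wd s) z := by
  rw [← mhz_map, wd_map hs]

lemma adm_wd : ∀ {s : List ℕ}, Adm s → adm (wd s)
  | [], _ => trivial
  | [a], h => by
    have h1 : 1 ≤ a := h.1 a (List.mem_singleton_self a)
    have h2 : a ≠ 1 := fun h' => h.2 (by rw [h']; rfl)
    show 1 ≤ a - 1
    omega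
  | a :: b :: s, h => by
    have h1 : adm (wd (b :: s)) := adm_wd ⟨fun c hc => h.1 c (List.mem_cons_of_mem _ hc), by
      have := h.2
      rwa [List.getLast?_cons_cons] at this⟩
    exact h1

lemma wd_inj {s t : List ℕ} (hs : ∀ a ∈ s, 1 ≤ a) (ht : ∀ a ∈ t, 1 ≤ a) (h : wd s = wd t) : s = t := by
  rw [← wd_map hs, ← wd_map ht, h]

/-- finite sets of words: generators and polynomials -/
theorem exists_poly (I : Finset (List ℕ)) (hI : ∀ s ∈ I, Adm s) :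
    ∃ (κ : Type) (_ : Fintype κ) (f : κ → ℂ → ℂ) (G : I → MvPolynomial κ ℚ),
      (∀ y, ∀ z ∈ Om, AnalyticAt ℂ (f y) z) ∧ (∀ z ∈ Om, Pool.Agent.Y124.LocInd f z) ∧
      (∀ (s : I) (z : ℂ), aeval (fun y => f y z) (G s) = mhz s z) ∧
      ∀ c : I → ℂ, ∑ w, C (c w) * MvPolynomial.map (algebraMap ℚ ℂ) (G w) = 0 → c = 0 := by
  classical
  obtain ⟨κ, hκ, a, ha, hind, hgen⟩ := exists_generators (I.sup fun s => wt (wd s))
  have hG : ∀ s : I, ∃ G : MvPolynomial κ ℚ, aeval (fun j => F (a j)) G = F (wd s) := fun s =>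
    hgen (wd s) (adm_wd (hI s s.2)) (Finset.le_sup (f := fun s => wt (wd s)) s.2)
  choose G hG using hG
  have hev : ∀ (s : I) (z : ℂ), aeval (fun y => F (a y) z) (G s) = F (wd s) z := by
    intro s z
    have h1 := congrFun (hG s) z
    rw [← h1]
    have h2 : ∀ P : MvPolynomial κ ℚ, aeval (fun j => F (a j)) P z = aeval (fun y => F (a y) z) P := by
      intro P
      have h3 := MvPolynomial.comp_aeval_apply (R := ℚ) (fun j => F (a j))
        (Pi.evalAlgHom ℚ (fun _ : ℂ => ℂ) z) P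
      exact h3
    exact (h2 _).symm
  refine ⟨κ, hκ, fun y => F (a y), G, fun y z hz => F_analytic (a y) (ha y) hz, hind,
    fun s z => by rw [hev, mhz_eq (hI s s.2).1], fun c hc => ?_⟩
  refine words_indep (fun s : I => wd s) (fun s t h => Subtype.ext (wd_inj (hI s s.2).1 (hI t t.2).1 h))
    (fun s => adm_wd (hI s s.2)) c (Eventually.of_forall fun t => ?_)
  have h1 := congrArg (aeval (fun y => F (a y) (t : ℂ)) : MvPolynomial κ ℂ →ₐ[ℂ] ℂ) hc
  rw [map_zero, map_sum] at h1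
  rw [← h1]
  refine Finset.sum_congr rfl fun s _ => ?_
  rw [map_mul, algHom_C, aeval_map_algebraMap, hev]
  rfl

/-- the main theorem -/
theorem main (I : Finset (List ℕ)) (hI : ∀ s ∈ I, Adm s) (L : Set ℂ) (hL : IsCompact L)
    (hL0 : ∀ z ∈ L, ∀ n : ℕ, z ≠ -n) (m g : ℕ) (A ε : ℝ) (hε : 0 < ε) :
    ∃ B C₁ T₀ : ℝ, ∀ (F : Type) [Field F] [NumberField F], Module.finrank ℚ F ≤ m →
      ∀ (ι : F →+* ℂ) (ξ : Fin g → ℂ) (T : ℝ), T₀ ≤ T →
      (({x : F | ι x ∈ L ∧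
        (∃ a c : 𝓞 F, c ≠ 0 ∧ (∀ φ : F →+* ℂ, ‖φ a‖ ≤ T ∧ ‖φ c‖ ≤ T) ∧ x = a / c) ∧
        ∃ c : List ℕ → Fin g → 𝓞 F, (∀ s ∈ I, ∀ i (φ : F →+* ℂ), ‖φ (c s i)‖ ≤ T ^ A) ∧
          ∃ s₀ ∈ I, (∑ i, ξ i * ι (c s₀ i)) ≠ 0 ∧
            ‖∑ s ∈ I, (∑ i, ξ i * ι (c s i)) * mhz s (ι x)‖ ≤
              T ^ (-B) * ‖∑ i, ξ i * ι (c s₀ i)‖}.ncard : ℕ) : ℝ) ≤ C₁ * T ^ ε := by
  classical
  obtain ⟨κ, hκ, f, G, han, hind, hev, hG⟩ := exists_poly I hI
  obtain ⟨B, C₁, T₀, H⟩ := Pool.Agent.X142.MH.fewWords f L hL (fun y t ht => han y t (mem_Om.2 (hL0 t ht)))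
    (fun t ht => hind t (mem_Om.2 (hL0 t ht))) G hG m g A ε hε
  refine ⟨B, C₁, T₀, fun F _ _ hF ι ξ T hT => ?_⟩
  refine le_trans (le_of_eq ?_) (H F hF ι ξ T hT)
  congr 2
  ext x
  refine and_congr_right fun _ => and_congr_right fun _ => ?_
  constructor
  · rintro ⟨c, hc, s₀, hs₀, h1, h2⟩
    refine ⟨fun s i => c s i, fun s i φ => hc s s.2 i φ, ⟨s₀, hs₀⟩, h1, ?_⟩
    refine le_trans (le_of_eq ?_) h2
    congr 1
    rw [← Finset.sum_coe_sort I fun s => (∑ i, ξ i * ι (c s i)) * mhz s (ι x)]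
    exact Finset.sum_congr rfl fun s _ => by rw [hev]
  · rintro ⟨c, hc, s₀, h1, h2⟩
    obtain ⟨c', hc'⟩ : ∃ c' : List ℕ → Fin g → 𝓞 F, ∀ s : I, c' s = c s :=
      ⟨fun s i => if h : s ∈ I then c ⟨s, h⟩ i else 0, fun s => funext fun i => dif_pos s.2⟩
    refine ⟨c', ?_, s₀, s₀.2, ?_, ?_⟩
    · intro s hs i φ
      rw [hc' ⟨s, hs⟩]
      exact hc _ i φ
    · rw [hc' s₀]
      exact h1
    · rw [hc' s₀]
      refine le_trans (le_of_eq ?_) h2
      congr 1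
      rw [← Finset.sum_coe_sort I]
      refine Finset.sum_congr rfl fun s _ => ?_
      rw [hev, hc' s]

end Pool.Agent.X142.MZ
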