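import Mathlib
import Pool.Agent.X142.MZ.Main

/-!
# Near relations between multiple Hurwitz zeta values, with the exceptional set as a finite set
-/

set_option autoImplicit false

namespace Pool.Agent.X142.MZ

open NumberField

lemma finite_ht (F : Type) [Field F] [NumberField F] (T : ℝ) :
    {x : F | ∃ a c : 𝓞 F, c ≠ 0 ∧ (∀ φ : F →+* ℂ, ‖φ a‖ ≤ T ∧ ‖φ c‖ ≤ T) ∧ x = a / c}.Finite := by
  have h1 : {x : F | IsIntegral ℤ x ∧ ∀ φ : F →+* ℂ, ‖φ x‖ ≤ T}.Finite :=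
    Embeddings.finite_of_norm_le F ℂ T
  refine ((h1.prod h1).image fun p : F × F => p.1 / p.2).subset ?_
  rintro x ⟨a, c, -, h, rfl⟩
  exact ⟨((a : F), (c : F)), ⟨⟨a.2, fun φ => (h φ).1⟩, ⟨c.2, fun φ => (h φ).2⟩⟩, rfl⟩

/-- the main theorem, second form -/
theorem mainX (I : Finset (List ℕ)) (hI : ∀ s ∈ I, Adm s) (L : Set ℂ) (hL : IsCompact L)
    (hL0 : ∀ z ∈ L, ∀ n : ℕ, z ≠ -n) (m g : ℕ) (A ε : ℝ) (hε : 0 < ε) :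
    ∃ B C₁ T₀ : ℝ, ∀ (F : Type) [Field F] [NumberField F], Module.finrank ℚ F ≤ m →
      ∀ (ι : F →+* ℂ) (ξ : Fin g → ℂ) (T : ℝ), T₀ ≤ T →
      ∃ X : Finset F, (X.card : ℝ) ≤ C₁ * T ^ ε ∧ ∀ x : F, ι x ∈ L →
        (∃ a c : 𝓞 F, c ≠ 0 ∧ (∀ φ : F →+* ℂ, ‖φ a‖ ≤ T ∧ ‖φ c‖ ≤ T) ∧ x = a / c) → x ∉ X →
        ∀ c : List ℕ → Fin g → 𝓞 F, (∀ s ∈ I, ∀ i (φ : F →+* ℂ), ‖φ (c s i)‖ ≤ T ^ A) →
          ∀ s₀ ∈ I, T ^ (-B) * ‖∑ i, ξ i * ι (c s₀ i)‖ ≤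
            ‖∑ s ∈ I, (∑ i, ξ i * ι (c s i)) * mhz s (ι x)‖ := by
  classical
  obtain ⟨B, C₁, T₀, H⟩ := main I hI L hL hL0 m g A ε hε
  refine ⟨B, C₁, T₀, fun F _ _ hF ι ξ T hT => ?_⟩
  have hfin : {x : F | ι x ∈ L ∧
        (∃ a c : 𝓞 F, c ≠ 0 ∧ (∀ φ : F →+* ℂ, ‖φ a‖ ≤ T ∧ ‖φ c‖ ≤ T) ∧ x = a / c) ∧
        ∃ c : List ℕ → Fin g → 𝓞 F, (∀ s ∈ I, ∀ i (φ : F →+* ℂ), ‖φ (c s i)‖ ≤ T ^ A) ∧
          ∃ s₀ ∈ I, (∑ i, ξ i * ι (c s₀ i)) ≠ 0 ∧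
            ‖∑ s ∈ I, (∑ i, ξ i * ι (c s i)) * mhz s (ι x)‖ ≤
              T ^ (-B) * ‖∑ i, ξ i * ι (c s₀ i)‖}.Finite :=
    (finite_ht F T).subset fun x hx => hx.2.1
  refine ⟨hfin.toFinset, ?_, fun x hxL hx hX c hc s₀ hs₀ => ?_⟩
  · refine le_trans (le_of_eq ?_) (H F hF ι ξ T hT)
    rw [Set.ncard_eq_toFinset_card _ hfin]
  · by_contra hcon
    rw [not_le] at hcon
    refine hX (hfin.mem_toFinset.2 ⟨hxL, hx, c, hc, s₀, hs₀, fun h0 => ?_, hcon.le⟩)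
    rw [h0, norm_zero, mul_zero] at hcon
    exact absurd hcon (not_lt.2 (norm_nonneg _))

end Pool.Agent.X142.MZ
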