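import Mathlib
import Pool.Agent.X142.MZ.Main2

/-!
# Polynomial relations between multiple Hurwitz zeta values and the stuffle product
-/

set_option autoImplicit false

namespace Pool.Agent.X142.MZ

open NumberField MvPolynomial

/-- the stuffle product of two indices, as a list of indices -/
def stuffle : List ℕ → List ℕ → List (List ℕ)
  | [], v => [v]
  | a :: u, [] => [a :: u]
  | a :: u, b :: v => (stuffle u (b :: v)).map (List.cons a) ++ ((stuffle (a :: u) v).map (List.cons b) ++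
      (stuffle u v).map (List.cons (a + b)))
termination_by u v => u.length + v.length

lemma stuffle_map : ∀ u v : List ℕ,
    stuffle (u.map (· + 1)) (v.map (· + 1)) = (qs u v).map (List.map (· + 1))
  | [], v => by
    rw [List.map_nil, stuffle, qs_nil_left]
    rfl
  | a :: u, [] => by
    rw [List.map_nil, List.map_cons, stuffle, qs_nil_right]
    rfl
  | a :: u, b :: v => by
    have ih1 := stuffle_map u (b :: v)
    have ih2 := stuffle_map (a :: u) v
    have ih3 := stuffle_map u v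
    rw [List.map_cons] at ih1 ih2
    rw [qs_cons, List.map_cons, List.map_cons, stuffle, ih1, ih2, ih3]
    simp only [List.map_append, List.map_map]
    congr 1
    congr 1
    refine List.map_congr_left fun w _ => ?_
    simp only [Function.comp_apply, List.map_cons]
    congr 1
    omega
termination_by u v => u.length + v.length

lemma Adm_map : ∀ {w : List ℕ}, adm w → Adm (w.map (· + 1))
  | [], _ => ⟨fun a ha => absurd ha List.not_mem_nil, by simp⟩
  | [a], h => by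
    refine ⟨fun b hb => ?_, ?_⟩
    · rw [List.map_cons, List.map_nil, List.mem_singleton] at hb
      omega
    · have h1 : 1 ≤ a := h
      show some (a + 1) ≠ some 1
      intro h2
      have := Option.some.inj h2
      omega
  | a :: b :: w, h => by
    have h1 : Adm ((b :: w).map (· + 1)) := Adm_map (w := b :: w) h
    refine ⟨fun c hc => ?_, ?_⟩
    · rw [List.map_cons, List.mem_cons] at hc
      rcases hc with hc | hc
      · omega
      · exact h1.1 c hc
    · have h2 := h1.2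
      rw [List.map_cons] at h2
      rw [List.map_cons, List.map_cons, List.getLast?_cons_cons]
      exact h2

lemma stuffle_adm {u v : List ℕ} (hu : Adm u) (hv : Adm v) : ∀ w ∈ stuffle u v, Adm w := by
  intro w hw
  rw [← wd_map hu.1, ← wd_map hv.1, stuffle_map, List.mem_map] at hw
  obtain ⟨w', hw', rfl⟩ := hw
  exact Adm_map (adm_qs _ _ (adm_wd hu) (adm_wd hv) w' hw')

lemma mhz_mul {u v : List ℕ} (hu : Adm u) (hv : Adm v) (z : ℂ) :
    mhz u z * mhz v z = ((stuffle u v).map fun w => mhz w z).sum := by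
  rw [mhz_eq hu.1, mhz_eq hv.1, F_mul _ _ (adm_wd hu) (adm_wd hv)]
  conv_rhs => rw [← wd_map hu.1, ← wd_map hv.1, stuffle_map]
  rw [List.map_map]
  unfold S
  congr 1
  exact List.map_congr_left fun w _ => (mhz_map w z).symm

/-- the ideal generated by the stuffle relations -/
noncomputable def J (R : Type) [CommRing R] : Ideal (MvPolynomial (List ℕ) R) :=
  Ideal.span ({X [] - 1} ∪ {p | ∃ u v, Adm u ∧ Adm v ∧ p = X u * X v - ((stuffle u v).map X).sum})

lemma J_map {R R' : Type} [CommRing R] [CommRing R'] (f : R →+* R') {p : MvPolynomial (List ℕ) R}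
    (hp : p ∈ J R) : MvPolynomial.map f p ∈ J R' := by
  have h1 : J R ≤ (J R').comap (MvPolynomial.map f) := by
    refine Ideal.span_le.2 ?_
    rintro q (hq | ⟨u, v, hu, hv, rfl⟩)
    · rw [Set.mem_singleton_iff.1 hq]
      show MvPolynomial.map f (X [] - 1) ∈ J R'
      rw [map_sub, map_X, map_one]
      exact Ideal.subset_span (Or.inl rfl)
    · show MvPolynomial.map f _ ∈ J R'
      rw [map_sub, map_mul, map_X, map_X, map_list_sum, List.map_map]
      refine Ideal.subset_span (Or.inr ⟨u, v, hu, hv, ?_⟩)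
      congr 2
      exact List.map_congr_left fun w _ => map_X f w
  exact h1 hp

lemma J_eval {R : Type} [CommRing R] (f : R →+* ℂ) (z : ℂ) {p : MvPolynomial (List ℕ) R}
    (hp : p ∈ J R) : eval₂ f (fun s => mhz s z) p = 0 := by
  have h1 : J R ≤ RingHom.ker (eval₂Hom f fun s => mhz s z) := by
    refine Ideal.span_le.2 ?_
    rintro q (hq | ⟨u, v, hu, hv, rfl⟩)
    · rw [Set.mem_singleton_iff.1 hq]
      show eval₂Hom f (fun s => mhz s z) (X [] - 1) = 0
      rw [map_sub, map_one, eval₂Hom_X']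
      show (1 : ℂ) - 1 = 0
      ring
    · show eval₂Hom f (fun s => mhz s z) _ = 0
      rw [map_sub, map_mul, eval₂Hom_X', eval₂Hom_X', map_list_sum, List.map_map, mhz_mul hu hv, sub_eq_zero]
      congr 1
      exact List.map_congr_left fun w _ => (eval₂Hom_X' f (fun s => mhz s z) w).symm
  exact h1 hp

/-- the linear polynomial with given coefficients -/
noncomputable def Ln : (List ℕ →₀ ℤ) →ₗ[ℤ] MvPolynomial (List ℕ) ℤ := Finsupp.linearCombination ℤ X

lemma Ln_single (w : List ℕ) (c : ℤ) : Ln (Finsupp.single w c) = c • X w := by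
  rw [Ln, Finsupp.linearCombination_single]

/-- polynomials that are linear modulo the stuffle relations -/
noncomputable def LinM : Submonoid (MvPolynomial (List ℕ) ℤ) where
  carrier := {p | ∃ n ∈ Finsupp.supported ℤ ℤ {w : List ℕ | Adm w}, p - Ln n ∈ J ℤ}
  one_mem' := by
    refine ⟨Finsupp.single [] 1, Finsupp.single_mem_supported ℤ 1 (by
      show Adm []
      exact ⟨fun a ha => absurd ha List.not_mem_nil, by simp⟩), ?_⟩
    rw [Ln_single, one_smul, ← neg_sub]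
    exact neg_mem (Ideal.subset_span (Or.inl rfl))
  mul_mem' := by
    rintro p q ⟨n, hn, hp⟩ ⟨m, hm, hq⟩
    refine ⟨n.sum fun u a => m.sum fun v b => (a * b) • ((stuffle u v).map fun w => Finsupp.single w (1 : ℤ)).sum,
      ?_, ?_⟩
    · refine Submodule.sum_mem _ fun u hu => Submodule.sum_mem _ fun v hv => Submodule.smul_mem _ _
        (list_sum_mem fun x hx => ?_)
      obtain ⟨w, hw, rfl⟩ := List.mem_map.1 hx
      exact Finsupp.single_mem_supported ℤ 1 (stuffle_adm (hn hu) (hm hv) w hw)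
    · have h1 : p * q - Ln n * Ln m ∈ J ℤ := by
        have : p * q - Ln n * Ln m = q * (p - Ln n) + Ln n * (q - Ln m) := by ring
        rw [this]
        exact add_mem (Ideal.mul_mem_left _ _ hp) (Ideal.mul_mem_left _ _ hq)
      have h2 : Ln n * Ln m - Ln (n.sum fun u a => m.sum fun v b =>
          (a * b) • ((stuffle u v).map fun w => Finsupp.single w (1 : ℤ)).sum) ∈ J ℤ := by
        have h3 : Ln n * Ln m - Ln (n.sum fun u a => m.sum fun v b =>
            (a * b) • ((stuffle u v).map fun w => Finsupp.single w (1 : ℤ)).sum) =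
            ∑ u ∈ n.support, ∑ v ∈ m.support, (n u * m v) • (X u * X v - ((stuffle u v).map X).sum) := by
          have h4 : Ln n = ∑ u ∈ n.support, n u • X u := by
            rw [Ln, Finsupp.linearCombination_apply]
            rfl
          have h5 : Ln m = ∑ u ∈ m.support, m u • X u := by
            rw [Ln, Finsupp.linearCombination_apply]
            rfl
          have h6 : Ln (n.sum fun u a => m.sum fun v b =>
              (a * b) • ((stuffle u v).map fun w => Finsupp.single w (1 : ℤ)).sum) =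
              ∑ u ∈ n.support, ∑ v ∈ m.support, (n u * m v) • ((stuffle u v).map X).sum := by
            rw [Finsupp.sum, map_sum]
            refine Finset.sum_congr rfl fun u _ => ?_
            rw [Finsupp.sum, map_sum]
            refine Finset.sum_congr rfl fun v _ => ?_
            rw [map_smul, map_list_sum, List.map_map]
            congr 2
            refine List.map_congr_left fun w _ => ?_
            rw [Function.comp_apply, Ln_single, one_smul]
          rw [h6, h4, h5, Finset.sum_mul_sum, ← Finset.sum_sub_distrib]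
          refine Finset.sum_congr rfl fun u _ => ?_
          rw [← Finset.sum_sub_distrib]
          refine Finset.sum_congr rfl fun v _ => ?_
          rw [smul_sub, smul_mul_smul_comm]
        rw [h3]
        exact Submodule.sum_mem _ fun u hu => Submodule.sum_mem _ fun v hv => by
          rw [zsmul_eq_mul]
          exact Ideal.mul_mem_left _ _ (Ideal.subset_span (Or.inr ⟨u, v, hn hu, hm hv, rfl⟩))
      have := add_mem h1 h2
      rwa [sub_add_sub_cancel] at this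

lemma expand (d : List ℕ →₀ ℕ) (hd : ∀ w ∈ d.support, Adm w) :
    ∃ n : List ℕ →₀ ℤ, (∀ w ∈ n.support, Adm w) ∧ monomial d (1 : ℤ) - Ln n ∈ J ℤ := by
  have h1 : monomial d (1 : ℤ) ∈ LinM := by
    rw [monomial_eq, C_1, one_mul]
    refine Submonoid.prod_mem _ fun w hw => Submonoid.pow_mem _ ?_ _
    exact ⟨Finsupp.single w 1, Finsupp.single_mem_supported ℤ 1 (hd w hw), by
      rw [Ln_single, one_smul, sub_self]
      exact zero_mem _⟩
  obtain ⟨n, hn, h⟩ := h1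
  exact ⟨n, fun w hw => hn hw, h⟩

/-- Liouville's inequality -/
lemma liouville {F : Type} [Field F] [NumberField F] {a : 𝓞 F} (ha : a ≠ 0) (ι : F →+* ℂ) {H : ℝ} (hH : 1 ≤ H)
    (h : ∀ φ : F →+* ℂ, ‖φ a‖ ≤ H) {m : ℕ} (hm : Module.finrank ℚ F ≤ m) : 1 ≤ ‖ι a‖ * H ^ m := by
  classical
  have h0 : (a : F) ≠ 0 := fun h => ha (RingOfIntegers.ext h)
  have h1 : IsIntegral ℤ (Algebra.norm ℚ (a : F)) := Algebra.isIntegral_norm ℚ a.2
  obtain ⟨n, hn⟩ := IsIntegrallyClosed.isIntegral_iff.1 h1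
  have h2 : Algebra.norm ℚ (a : F) ≠ 0 := Algebra.norm_ne_zero_iff.2 h0
  have h3 : n ≠ 0 := by
    rintro rfl
    exact h2 (by rw [← hn, map_zero])
  have h4 : (1 : ℝ) ≤ ‖algebraMap ℚ ℂ (Algebra.norm ℚ (a : F))‖ := by
    rw [← hn]
    have h5 : (algebraMap ℚ ℂ (algebraMap ℤ ℚ n)) = ((n : ℝ) : ℂ) := by simp
    rw [h5, Complex.norm_real, Real.norm_eq_abs]
    exact_mod_cast Int.one_le_abs h3
  rw [Algebra.norm_eq_prod_embeddings ℚ ℂ (a : F), norm_prod,
    ← Finset.mul_prod_erase Finset.univ _ (Finset.mem_univ ι.toRatAlgHom)] at h4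
  refine h4.trans ?_
  have h6 : ∏ σ ∈ (Finset.univ : Finset (F →ₐ[ℚ] ℂ)).erase ι.toRatAlgHom, ‖σ (a : F)‖ ≤ H ^ m := by
    refine (Finset.prod_le_prod (fun σ _ => norm_nonneg _)
      fun (σ : F →ₐ[ℚ] ℂ) _ => h σ.toRingHom).trans ?_
    rw [Finset.prod_const]
    refine pow_le_pow_right₀ hH ?_
    refine (Finset.card_le_univ _).trans ?_
    rw [AlgHom.card]
    exact hm
  exact mul_le_mul_of_nonneg_left h6 (norm_nonneg _)

lemma map_Ln {R : Type} [CommRing R] (n : List ℕ →₀ ℤ) {I : Finset (List ℕ)} (hI : n.support ⊆ I) :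
    MvPolynomial.map (Int.castRingHom R) (Ln n) = ∑ w ∈ I, C ((n w : ℤ) : R) * X w := by
  rw [Ln, Finsupp.linearCombination_apply, Finsupp.sum_of_support_subset n hI
    (fun w a => a • (X w : MvPolynomial (List ℕ) ℤ)) fun w _ => zero_smul ℤ _, map_sum]
  refine Finset.sum_congr rfl fun w _ => ?_
  rw [zsmul_eq_mul, map_mul, map_X, map_intCast]
  congr 1

lemma expand_map {R : Type} [CommRing R] {n : (List ℕ →₀ ℕ) → List ℕ →₀ ℤ} {M : Finset (List ℕ →₀ ℕ)}
    (hn : ∀ d ∈ M, monomial d (1 : ℤ) - Ln (n d) ∈ J ℤ) {I : Finset (List ℕ)}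
    (hI : ∀ d ∈ M, (n d).support ⊆ I) (c : (List ℕ →₀ ℕ) → R) :
    ∑ d ∈ M, monomial d (c d) - ∑ w ∈ I, C (∑ d ∈ M, ((n d w : ℤ) : R) * c d) * X w ∈ J R := by
  have h1 : ∑ d ∈ M, monomial d (c d) - ∑ w ∈ I, C (∑ d ∈ M, ((n d w : ℤ) : R) * c d) * X w =
      ∑ d ∈ M, C (c d) * MvPolynomial.map (Int.castRingHom R) (monomial d (1 : ℤ) - Ln (n d)) := by
    have h2 : ∑ w ∈ I, C (∑ d ∈ M, ((n d w : ℤ) : R) * c d) * X w =
        ∑ d ∈ M, C (c d) * ∑ w ∈ I, (C ((n d w : ℤ) : R) * X w : MvPolynomial (List ℕ) R) := by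
      simp only [map_sum, map_mul, Finset.sum_mul, Finset.mul_sum]
      rw [Finset.sum_comm]
      refine Finset.sum_congr rfl fun d _ => Finset.sum_congr rfl fun w _ => ?_
      ring
    rw [h2, ← Finset.sum_sub_distrib]
    refine Finset.sum_congr rfl fun d hd => ?_
    rw [map_sub, map_Ln (n d) (hI d hd), mul_sub, map_monomial, map_one, C_mul_monomial, mul_one]
  rw [h1]
  exact Submodule.sum_mem _ fun d hd => Ideal.mul_mem_left _ _ (J_map _ (hn d hd))

/-- near relations are near the stuffle ideal, general coefficients -/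
theorem polyQ (M : Finset (List ℕ →₀ ℕ)) (hM : ∀ d ∈ M, ∀ s ∈ d.support, Adm s) (L : Set ℂ)
    (hL : IsCompact L) (hL0 : ∀ z ∈ L, ∀ n : ℕ, z ≠ -n) (m g : ℕ) (A ε : ℝ) (hε : 0 < ε) :
    ∃ W : Finset (List ℕ), (∀ w ∈ W, Adm w) ∧ ∃ n : (List ℕ →₀ ℕ) → List ℕ →₀ ℤ,
      (∀ (R : Type) [CommRing R] (c : (List ℕ →₀ ℕ) → R),
        ∑ d ∈ M, monomial d (c d) - ∑ w ∈ W, C (∑ d ∈ M, ((n d w : ℤ) : R) * c d) * X w ∈ J R) ∧
      ∃ B C₁ T₀ : ℝ, ∀ (F : Type) [Field F] [NumberField F], Module.finrank ℚ F ≤ m →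
      ∀ (ι : F →+* ℂ) (ξ : Fin g → ℂ) (T : ℝ), T₀ ≤ T →
      ∃ X : Finset F, (X.card : ℝ) ≤ C₁ * T ^ ε ∧ ∀ x : F, ι x ∈ L →
        (∃ a c : 𝓞 F, c ≠ 0 ∧ (∀ φ : F →+* ℂ, ‖φ a‖ ≤ T ∧ ‖φ c‖ ≤ T) ∧ x = a / c) → x ∉ X →
        ∀ c : (List ℕ →₀ ℕ) → Fin g → 𝓞 F, (∀ d ∈ M, ∀ i (φ : F →+* ℂ), ‖φ (c d i)‖ ≤ T ^ A) →
          ∀ w ∈ W, T ^ (-B) * ‖∑ d ∈ M, ((n d w : ℤ) : ℂ) * ∑ i, ξ i * ι (c d i)‖ ≤
            ‖∑ d ∈ M, (∑ i, ξ i * ι (c d i)) * d.prod fun s k => mhz s (ι x) ^ k‖ := by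
  classical
  have hex : ∀ d : List ℕ →₀ ℕ, ∃ n : List ℕ →₀ ℤ, d ∈ M → (∀ w ∈ n.support, Adm w) ∧
      monomial d (1 : ℤ) - Ln n ∈ J ℤ := fun d => by
    by_cases hd : d ∈ M
    · obtain ⟨n, hn⟩ := expand d (hM d hd)
      exact ⟨n, fun _ => hn⟩
    · exact ⟨0, fun h => absurd h hd⟩
  choose n hn using hex
  set W : Finset (List ℕ) := M.biUnion fun d => (n d).support with hW
  have hWa : ∀ w ∈ W, Adm w := fun w hw => by
    obtain ⟨d, hd, h⟩ := Finset.mem_biUnion.1 hw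
    exact (hn d hd).1 w h
  have hWs : ∀ d ∈ M, (n d).support ⊆ W := fun d hd => Finset.subset_biUnion_of_mem (fun d => (n d).support) hd
  have hJ : ∀ (R : Type) [CommRing R] (c : (List ℕ →₀ ℕ) → R),
        ∑ d ∈ M, monomial d (c d) - ∑ w ∈ W, C (∑ d ∈ M, ((n d w : ℤ) : R) * c d) * X w ∈ J R :=
    fun R _ c => expand_map (fun d hd => (hn d hd).2) hWs c
  -- bound for the integers
  set N0 : ℝ := ∑ w ∈ W, ∑ d ∈ M, |(n d w : ℝ)| with hN0
  have hN0w : ∀ w ∈ W, ∑ d ∈ M, |(n d w : ℝ)| ≤ N0 := fun w hw =>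
    Finset.single_le_sum (f := fun w => ∑ d ∈ M, |(n d w : ℝ)|)
      (fun _ _ => Finset.sum_nonneg fun _ _ => abs_nonneg _) hw
  obtain ⟨B, C₁, T₀, H⟩ := mainX W hWa L hL hL0 m g (A + 1) ε hε
  refine ⟨W, hWa, n, hJ, B, C₁, max T₀ (max N0 1), fun F _ _ hF ι ξ T hT => ?_⟩
  have hT0 : T₀ ≤ T := (le_max_left _ _).trans hT
  have hTN : N0 ≤ T := ((le_max_left _ _).trans (le_max_right _ _)).trans hT
  have hT1 : 1 ≤ T := ((le_max_right _ _).trans (le_max_right _ _)).trans hT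
  have hTp : 0 < T := lt_of_lt_of_le one_pos hT1
  obtain ⟨X, hX, h⟩ := H F hF ι ξ T hT0
  refine ⟨X, hX, fun x hxL hx hxX c hc w hw => ?_⟩
  have hc' : ∀ s ∈ W, ∀ i (φ : F →+* ℂ), ‖φ ((∑ d ∈ M, (n d s) • c d i : 𝓞 F) : F)‖ ≤ T ^ (A + 1) := by
    intro s hs i φ
    have h1 : φ ((∑ d ∈ M, (n d s) • c d i : 𝓞 F) : F) = ∑ d ∈ M, ((n d s : ℤ) : ℂ) * φ (c d i) := by
      show φ (algebraMap (𝓞 F) F (∑ d ∈ M, (n d s) • c d i)) = _
      rw [map_sum, map_sum]
      refine Finset.sum_congr rfl fun d _ => ?_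
      rw [zsmul_eq_mul, map_mul, map_mul, map_intCast, map_intCast]
    rw [h1]
    refine (norm_sum_le _ _).trans ?_
    have h2 : ∀ d ∈ M, ‖((n d s : ℤ) : ℂ) * φ (c d i)‖ ≤ |(n d s : ℝ)| * T ^ A := fun d hd => by
      rw [norm_mul, Complex.norm_intCast]
      exact mul_le_mul_of_nonneg_left (hc d hd i φ) (abs_nonneg _)
    refine (Finset.sum_le_sum h2).trans ?_
    rw [← Finset.sum_mul, Real.rpow_add hTp, Real.rpow_one, mul_comm]
    exact mul_le_mul_of_nonneg_left ((hN0w s hs).trans hTN) (Real.rpow_nonneg hTp.le _)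
  have h3 := h x hxL hx hxX (fun s i => ∑ d ∈ M, (n d s) • c d i) hc' w hw
  have h4 : ∀ s, ∑ i, ξ i * ι ((∑ d ∈ M, (n d s) • c d i : 𝓞 F) : F) =
      ∑ d ∈ M, ((n d s : ℤ) : ℂ) * ∑ i, ξ i * ι (c d i) := by
    intro s
    have h1 : ∀ i, ι ((∑ d ∈ M, (n d s) • c d i : 𝓞 F) : F) = ∑ d ∈ M, ((n d s : ℤ) : ℂ) * ι (c d i) := by
      intro i
      show ι (algebraMap (𝓞 F) F (∑ d ∈ M, (n d s) • c d i)) = _
      rw [map_sum, map_sum]
      refine Finset.sum_congr rfl fun d _ => ?_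
      rw [zsmul_eq_mul, map_mul, map_mul, map_intCast, map_intCast]
    simp only [h1, Finset.mul_sum]
    rw [Finset.sum_comm]
    refine Finset.sum_congr rfl fun d _ => Finset.sum_congr rfl fun i _ => ?_
    ring
  simp only [h4] at h3
  refine h3.trans (le_of_eq ?_)
  congr 1
  have h5 := J_eval (RingHom.id ℂ) (ι x) (hJ ℂ fun d => ∑ i, ξ i * ι (c d i))
  rw [← coe_eval₂Hom, map_sub, sub_eq_zero, map_sum, map_sum] at h5
  simp only [map_mul, coe_eval₂Hom, eval₂_C, eval₂_X, eval₂_monomial, RingHom.id_apply] at h5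
  exact h5.symm

/-- every near relation of polynomial height is a consequence of the stuffle product -/
theorem polyJ (M : Finset (List ℕ →₀ ℕ)) (hM : ∀ d ∈ M, ∀ s ∈ d.support, Adm s) (L : Set ℂ)
    (hL : IsCompact L) (hL0 : ∀ z ∈ L, ∀ n : ℕ, z ≠ -n) (m : ℕ) (A ε : ℝ) (hε : 0 < ε) :
    ∃ B C₁ T₀ : ℝ, ∀ (F : Type) [Field F] [NumberField F], Module.finrank ℚ F ≤ m →
      ∀ (ι : F →+* ℂ) (T : ℝ), T₀ ≤ T →
      ∃ X : Finset F, (X.card : ℝ) ≤ C₁ * T ^ ε ∧ ∀ x : F, ι x ∈ L →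
        (∃ a c : 𝓞 F, c ≠ 0 ∧ (∀ φ : F →+* ℂ, ‖φ a‖ ≤ T ∧ ‖φ c‖ ≤ T) ∧ x = a / c) → x ∉ X →
        ∀ P : MvPolynomial (List ℕ) (𝓞 F), P.support ⊆ M →
          (∀ d (φ : F →+* ℂ), ‖φ (P.coeff d : 𝓞 F)‖ ≤ T ^ A) →
          ‖eval₂ (ι.comp (algebraMap (𝓞 F) F)) (fun s => mhz s (ι x)) P‖ ≤ T ^ (-B) → P ∈ J (𝓞 F) := by
  classical
  obtain ⟨W, hWa, n, hJ, B, C₁, T₀, H⟩ := polyQ M hM L hL hL0 m 1 (max A 0) ε hε
  set N0 : ℝ := ∑ w ∈ W, ∑ d ∈ M, |(n d w : ℝ)| with hN0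
  have hN0w : ∀ w ∈ W, ∑ d ∈ M, |(n d w : ℝ)| ≤ N0 := fun w hw =>
    Finset.single_le_sum (f := fun w => ∑ d ∈ M, |(n d w : ℝ)|)
      (fun _ _ => Finset.sum_nonneg fun _ _ => abs_nonneg _) hw
  refine ⟨B + (max A 0 + 1) * m + 1, C₁, max T₀ (max N0 2), fun F _ _ hF ι T hT => ?_⟩
  have hT0 : T₀ ≤ T := (le_max_left _ _).trans hT
  have hTN : N0 ≤ T := ((le_max_left _ _).trans (le_max_right _ _)).trans hT
  have hT2 : 2 ≤ T := ((le_max_right _ _).trans (le_max_right _ _)).trans hT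
  have hT1 : 1 ≤ T := one_le_two.trans hT2
  have hTp : 0 < T := lt_of_lt_of_le one_pos hT1
  obtain ⟨X, hX, h⟩ := H F hF ι (fun _ => 1) T hT0
  refine ⟨X, hX, fun x hxL hx hxX P hPM hP hsmall => ?_⟩
  have hPA : ∀ d (φ : F →+* ℂ), ‖φ (P.coeff d : 𝓞 F)‖ ≤ T ^ (max A 0) := fun d φ =>
    (hP d φ).trans (Real.rpow_le_rpow_of_exponent_le hT1 (le_max_left _ _))
  have hPsum : P = ∑ d ∈ M, monomial d (P.coeff d) := by
    conv_lhs => rw [P.as_sum]
    refine Finset.sum_subset hPM fun d _ hd => ?_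
    rw [notMem_support_iff.1 hd, map_zero]
  have h1 := h x hxL hx hxX (fun d _ => P.coeff d) (fun d _ _ φ => hPA d φ)
  have h2 := hJ (𝓞 F) fun d => P.coeff d
  rw [← hPsum] at h2
  -- the linear part vanishes
  have h3 : ∀ w ∈ W, ∑ d ∈ M, ((n d w : ℤ) : 𝓞 F) * P.coeff d = 0 := by
    intro w hw
    by_contra hne
    have h4 : ∀ φ : F →+* ℂ, φ ((∑ d ∈ M, ((n d w : ℤ) : 𝓞 F) * P.coeff d : 𝓞 F) : F) =
        ∑ d ∈ M, ((n d w : ℤ) : ℂ) * φ (P.coeff d : 𝓞 F) := by
      intro φ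
      show φ (algebraMap (𝓞 F) F (∑ d ∈ M, ((n d w : ℤ) : 𝓞 F) * P.coeff d)) = _
      rw [map_sum, map_sum]
      refine Finset.sum_congr rfl fun d _ => ?_
      rw [map_mul, map_mul, map_intCast, map_intCast]
    have h5 : ∀ φ : F →+* ℂ, ‖φ ((∑ d ∈ M, ((n d w : ℤ) : 𝓞 F) * P.coeff d : 𝓞 F) : F)‖ ≤
        T ^ (max A 0 + 1) := by
      intro φ
      rw [h4]
      refine (norm_sum_le _ _).trans ?_
      have h6 : ∀ d ∈ M, ‖((n d w : ℤ) : ℂ) * φ (P.coeff d : 𝓞 F)‖ ≤ |(n d w : ℝ)| * T ^ (max A 0) :=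
        fun d hd => by
          rw [norm_mul, Complex.norm_intCast]
          exact mul_le_mul_of_nonneg_left (hPA d φ) (abs_nonneg _)
      refine (Finset.sum_le_sum h6).trans ?_
      rw [← Finset.sum_mul, Real.rpow_add hTp, Real.rpow_one, mul_comm]
      exact mul_le_mul_of_nonneg_left ((hN0w w hw).trans hTN) (Real.rpow_nonneg hTp.le _)
    have h7 := liouville hne ι (Real.one_le_rpow hT1 (by positivity)) h5 hF
    rw [h4] at h7
    have h8 := h1 w hw
    simp only [Finset.univ_unique, Finset.sum_singleton, one_mul] at h8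
    have h9 : ∑ d ∈ M, ι (P.coeff d : 𝓞 F) * d.prod (fun s k => mhz s (ι x) ^ k) =
        eval₂ (ι.comp (algebraMap (𝓞 F) F)) (fun s => mhz s (ι x)) P := by
      conv_rhs => rw [hPsum]
      rw [← coe_eval₂Hom, map_sum]
      refine Finset.sum_congr rfl fun d _ => ?_
      rw [coe_eval₂Hom, eval₂_monomial]
      rfl
    rw [h9] at h8
    have h10 : T ^ (-B) * ‖∑ d ∈ M, ((n d w : ℤ) : ℂ) * ι (P.coeff d : 𝓞 F)‖ ≤
        T ^ (-(B + (max A 0 + 1) * m + 1)) := h8.trans hsmall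
    have h11 : (T ^ (max A 0 + 1)) ^ m = T ^ ((max A 0 + 1) * m) := by
      rw [← Real.rpow_natCast, ← Real.rpow_mul hTp.le]
    rw [h11] at h7
    have h12 : T ^ (-B) ≤ T ^ (-B - 1) := by
      calc T ^ (-B) = T ^ (-B) * 1 := (mul_one _).symm
        _ ≤ T ^ (-B) * (‖∑ d ∈ M, ((n d w : ℤ) : ℂ) * ι (P.coeff d : 𝓞 F)‖ * T ^ ((max A 0 + 1) * m)) :=
            mul_le_mul_of_nonneg_left h7 (Real.rpow_nonneg hTp.le _)
        _ = (T ^ (-B) * ‖∑ d ∈ M, ((n d w : ℤ) : ℂ) * ι (P.coeff d : 𝓞 F)‖) * T ^ ((max A 0 + 1) * m) := by ring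
        _ ≤ T ^ (-(B + (max A 0 + 1) * m + 1)) * T ^ ((max A 0 + 1) * m) :=
            mul_le_mul_of_nonneg_right h10 (Real.rpow_nonneg hTp.le _)
        _ = T ^ (-B - 1) := by
            rw [← Real.rpow_add hTp]
            congr 1
            ring
    have h13 : T ^ (-B - 1) < T ^ (-B) :=
      Real.rpow_lt_rpow_of_exponent_lt (lt_of_lt_of_le one_lt_two hT2) (by linarith)
    exact absurd h12 (not_le.2 h13)
  have h14 : ∑ w ∈ W, C (∑ d ∈ M, ((n d w : ℤ) : 𝓞 F) * P.coeff d) * (MvPolynomial.X w : MvPolynomial (List ℕ) (𝓞 F)) = 0 :=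
    Finset.sum_eq_zero fun w hw => by rw [h3 w hw, C_0, zero_mul]
  rw [h14, sub_zero] at h2
  exact h2

end Pool.Agent.X142.MZ
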