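import Mathlib
import Pool.Agent.X142.MZ.Poly

/-!
# Generators of the algebra of multiple Hurwitz zeta values
-/

set_option autoImplicit false

namespace Pool.Agent.X142.MZ

open NumberField MvPolynomial Filter Topology
open Pool.Agent.X142.AZ (Om mem_Om)

/-- `fewWords`, with the exceptional set as a finite set -/
theorem fewWordsX {κ : Type} [Fintype κ] (f : κ → ℂ → ℂ) (L : Set ℂ) (hL : IsCompact L)
    (han : ∀ y, ∀ t ∈ L, AnalyticAt ℂ (f y) t) (hind : ∀ t ∈ L, Pool.Agent.Y124.LocInd f t)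
    {r : Type} [Fintype r] (G : r → MvPolynomial κ ℚ)
    (hG : ∀ c : r → ℂ, ∑ w, C (c w) * MvPolynomial.map (algebraMap ℚ ℂ) (G w) = 0 → c = 0)
    (m g : ℕ) (A ε : ℝ) (hε : 0 < ε) :
    ∃ B C₁ T₀ : ℝ, ∀ (F : Type) [Field F] [NumberField F], Module.finrank ℚ F ≤ m →
      ∀ (ι : F →+* ℂ) (ξ : Fin g → ℂ) (T : ℝ), T₀ ≤ T →
      ∃ X : Finset F, (X.card : ℝ) ≤ C₁ * T ^ ε ∧ ∀ x : F, ι x ∈ L →
        (∃ a c : 𝓞 F, c ≠ 0 ∧ (∀ φ : F →+* ℂ, ‖φ a‖ ≤ T ∧ ‖φ c‖ ≤ T) ∧ x = a / c) → x ∉ X →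
        ∀ c : r → Fin g → 𝓞 F, (∀ w i (φ : F →+* ℂ), ‖φ (c w i)‖ ≤ T ^ A) →
          ∀ w₀, T ^ (-B) * ‖∑ i, ξ i * ι (c w₀ i)‖ ≤
            ‖∑ w, (∑ i, ξ i * ι (c w i)) * aeval (fun y => f y (ι x)) (G w)‖ := by
  classical
  obtain ⟨B, C₁, T₀, H⟩ := Pool.Agent.X142.MH.fewWords f L hL han hind G hG m g A ε hε
  refine ⟨B, C₁, T₀, fun F _ _ hF ι ξ T hT => ?_⟩
  have hfin : {x : F | ι x ∈ L ∧
        (∃ a c : 𝓞 F, c ≠ 0 ∧ (∀ φ : F →+* ℂ, ‖φ a‖ ≤ T ∧ ‖φ c‖ ≤ T) ∧ x = a / c) ∧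
        ∃ c : r → Fin g → 𝓞 F, (∀ w i (φ : F →+* ℂ), ‖φ (c w i)‖ ≤ T ^ A) ∧
          ∃ w₀, (∑ i, ξ i * ι (c w₀ i)) ≠ 0 ∧
            ‖∑ w, (∑ i, ξ i * ι (c w i)) * aeval (fun y => f y (ι x)) (G w)‖ ≤
              T ^ (-B) * ‖∑ i, ξ i * ι (c w₀ i)‖}.Finite :=
    (finite_ht F T).subset fun x hx => hx.2.1
  refine ⟨hfin.toFinset, ?_, fun x hxL hx hX c hc w₀ => ?_⟩
  · refine le_trans (le_of_eq ?_) (H F hF ι ξ T hT)
    rw [Set.ncard_eq_toFinset_card _ hfin]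
  · by_contra hcon
    rw [not_le] at hcon
    refine hX (hfin.mem_toFinset.2 ⟨hxL, hx, c, hc, w₀, fun h0 => ?_, hcon.le⟩)
    rw [h0, norm_zero, mul_zero] at hcon
    exact absurd hcon (not_lt.2 (norm_nonneg _))

lemma wt_wd : ∀ {s : List ℕ}, (∀ a ∈ s, 1 ≤ a) → wt (wd s) = s.sum
  | [], _ => rfl
  | a :: s, h => by
    have h1 : 1 ≤ a := h a List.mem_cons_self
    have h2 := wt_wd (s := s) fun b hb => h b (List.mem_cons_of_mem _ hb)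
    show (a - 1 + 1) + wt (wd s) = _
    rw [h2, List.sum_cons]
    omega

/-- generators in weights at most `k`, algebraically independent at almost all arguments -/
theorem gens (k : ℕ) : ∃ (κ : Type) (_ : Fintype κ) (a : κ → List ℕ), (∀ j, Adm (a j)) ∧
    (∀ s, Adm s → s.sum ≤ k → ∃ G : MvPolynomial κ ℚ, ∀ z : ℂ,
      aeval (fun j => mhz (a j) z) G = mhz s z) ∧
    ∀ (M : Finset (κ →₀ ℕ)) (L : Set ℂ), IsCompact L → (∀ z ∈ L, ∀ n : ℕ, z ≠ -n) →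
    ∀ (m g : ℕ) (A ε : ℝ), 0 < ε →
    ∃ B C₁ T₀ : ℝ, ∀ (F : Type) [Field F] [NumberField F], Module.finrank ℚ F ≤ m →
      ∀ (ι : F →+* ℂ) (ξ : Fin g → ℂ) (T : ℝ), T₀ ≤ T →
      ∃ X : Finset F, (X.card : ℝ) ≤ C₁ * T ^ ε ∧ ∀ x : F, ι x ∈ L →
        (∃ a c : 𝓞 F, c ≠ 0 ∧ (∀ φ : F →+* ℂ, ‖φ a‖ ≤ T ∧ ‖φ c‖ ≤ T) ∧ x = a / c) → x ∉ X →
        ∀ c : (κ →₀ ℕ) → Fin g → 𝓞 F, (∀ d ∈ M, ∀ i (φ : F →+* ℂ), ‖φ (c d i)‖ ≤ T ^ A) →
          ∀ d₀ ∈ M, T ^ (-B) * ‖∑ i, ξ i * ι (c d₀ i)‖ ≤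
            ‖∑ d ∈ M, (∑ i, ξ i * ι (c d i)) * d.prod fun j e => mhz (a j) (ι x) ^ e‖ := by
  classical
  obtain ⟨κ, hκ, a, ha, hind, hgen⟩ := exists_generators k
  refine ⟨κ, hκ, fun j => (a j).map (· + 1), fun j => Adm_map (ha j), fun s hs hk => ?_, ?_⟩
  · obtain ⟨G, hG⟩ := hgen (wd s) (adm_wd hs) (by rw [wt_wd hs.1]; exact hk)
    refine ⟨G, fun z => ?_⟩
    simp only [mhz_map]
    rw [mhz_eq hs.1, ← hG]
    have h3 := MvPolynomial.comp_aeval_apply (R := ℚ) (fun j => F (a j))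
      (Pi.evalAlgHom ℚ (fun _ : ℂ => ℂ) z) G
    exact h3.symm
  · intro M L hL hL0 m g A ε hε
    have hG : ∀ c : M → ℂ, ∑ w, C (c w) * MvPolynomial.map (algebraMap ℚ ℂ) (monomial (w : κ →₀ ℕ) (1 : ℚ)) = 0 →
        c = 0 := by
      intro c hc
      funext w
      have h1 := congrArg (coeff (w : κ →₀ ℕ)) hc
      rw [coeff_sum, coeff_zero] at h1
      simp only [map_monomial, map_one, C_mul_monomial, mul_one, coeff_monomial] at h1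
      rw [Finset.sum_eq_single w] at h1
      · rw [if_pos rfl] at h1
        exact h1
      · intro b _ hb
        exact if_neg fun h => hb (Subtype.ext h)
      · intro h
        exact absurd (Finset.mem_univ _) h
    obtain ⟨B, C₁, T₀, H⟩ := fewWordsX (fun j => F (a j)) L hL
      (fun y t ht => F_analytic (a y) (ha y) (mem_Om.2 (hL0 t ht))) (fun t ht => hind t (mem_Om.2 (hL0 t ht)))
      (fun w : M => monomial (w : κ →₀ ℕ) (1 : ℚ)) hG m g A ε hε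
    refine ⟨B, C₁, T₀, fun K _ _ hF ι ξ T hT => ?_⟩
    obtain ⟨X, hX, h⟩ := H K hF ι ξ T hT
    refine ⟨X, hX, fun x hxL hx hxX c hc d₀ hd₀ => ?_⟩
    refine (h x hxL hx hxX (fun w i => c w i) (fun w i φ => hc w w.2 i φ) ⟨d₀, hd₀⟩).trans (le_of_eq ?_)
    congr 1
    rw [← Finset.sum_coe_sort M]
    refine Finset.sum_congr rfl fun w _ => ?_
    congr 1
    rw [aeval_monomial, map_one, one_mul]
    simp only [mhz_map]

end Pool.Agent.X142.MZ
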