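import Mathlib
import Pool.Agent.X142.MZ.Main2

/-!
# Two disjoint families of indices
-/

set_option autoImplicit false

namespace Pool.Agent.X142.MZ

open NumberField

/-- a general statement on two disjoint finite families: from the estimate for their union -/
theorem two_families {α F : Type} [DecidableEq α] [Field F] [NumberField F] {g : ℕ} (H E : Finset α)
    (hdis : Disjoint H E) (ι : F →+* ℂ) (ξ : Fin g → ℂ) (v : α → ℂ) {T A B : ℝ} (hT : 1 ≤ T)
    (h : ∀ c : α → Fin g → 𝓞 F, (∀ s ∈ H ∪ E, ∀ i (φ : F →+* ℂ), ‖φ (c s i)‖ ≤ T ^ A) →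
      ∀ s₀ ∈ H ∪ E, T ^ (-B) * ‖∑ i, ξ i * ι (c s₀ i)‖ ≤
        ‖∑ s ∈ H ∪ E, (∑ i, ξ i * ι (c s i)) * v s‖)
    (c : α → Fin g → 𝓞 F) (hc : ∀ s ∈ H ∪ E, ∀ i (φ : F →+* ℂ), ‖φ (c s i)‖ ≤ T ^ A) :
    (∀ s₀ ∈ H, T ^ (-B) * ‖∑ i, ξ i * ι (c s₀ i)‖ ≤ ‖∑ s ∈ H, (∑ i, ξ i * ι (c s i)) * v s‖) ∧
    ∀ s₀ ∈ E, T ^ (-B) * ‖∑ i, ξ i * ι (c s₀ i)‖ ≤
      ‖∑ s ∈ E, (∑ i, ξ i * ι (c s i)) * v s - ∑ s ∈ H, (∑ i, ξ i * ι (c s i)) * v s‖ := by
  have hTp : 0 < T := lt_of_lt_of_le one_pos hT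
  have hHE : ∀ s ∈ E, s ∉ H := fun s hs hs' => Finset.disjoint_left.1 hdis hs' hs
  constructor
  · intro s₀ hs₀
    have h1 := h (fun s => if s ∈ H then c s else 0) (fun s hs i φ => by
      by_cases hsH : s ∈ H
      · simp only [if_pos hsH]
        exact hc s hs i φ
      · simp only [if_neg hsH]
        show ‖φ (algebraMap (𝓞 F) F 0)‖ ≤ _
        rw [map_zero, map_zero, norm_zero]
        exact Real.rpow_nonneg hTp.le _) s₀ (Finset.mem_union_left _ hs₀)
    simp only [if_pos hs₀] at h1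
    refine h1.trans (le_of_eq ?_)
    congr 1
    rw [Finset.sum_union hdis]
    have h2 : ∑ s ∈ E, (∑ i, ξ i * ι (((if s ∈ H then c s else 0 : Fin g → 𝓞 F) i : 𝓞 F) : F)) * v s = 0 := by
      refine Finset.sum_eq_zero fun s hs => ?_
      rw [if_neg (hHE s hs)]
      have h3 : ∑ i : Fin g, ξ i * ι (((0 : Fin g → 𝓞 F) i : 𝓞 F) : F) = 0 := by
        refine Finset.sum_eq_zero fun i _ => ?_
        show ξ i * ι (algebraMap (𝓞 F) F 0) = 0
        rw [map_zero, map_zero, mul_zero]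
      rw [h3, zero_mul]
    rw [h2, add_zero]
    exact Finset.sum_congr rfl fun s hs => by rw [if_pos hs]
  · intro s₀ hs₀
    have h1 := h (fun s => if s ∈ H then -c s else c s) (fun s hs i φ => by
      by_cases hsH : s ∈ H
      · simp only [if_pos hsH]
        show ‖φ (algebraMap (𝓞 F) F (-c s i))‖ ≤ _
        rw [map_neg, map_neg, norm_neg]
        exact hc s hs i φ
      · simp only [if_neg hsH]
        exact hc s hs i φ) s₀ (Finset.mem_union_right _ hs₀)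
    simp only [if_neg (hHE s₀ hs₀)] at h1
    refine h1.trans (le_of_eq ?_)
    congr 1
    rw [Finset.sum_union hdis, add_comm, sub_eq_add_neg, ← Finset.sum_neg_distrib]
    congr 1
    · exact Finset.sum_congr rfl fun s hs => by rw [if_neg (hHE s hs)]
    · refine Finset.sum_congr rfl fun s hs => ?_
      rw [if_pos hs, ← neg_mul, ← Finset.sum_neg_distrib]
      congr 1
      refine Finset.sum_congr rfl fun i _ => ?_
      show ξ i * ι (algebraMap (𝓞 F) F (-c s i)) = -(ξ i * ι (c s i))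
      rw [map_neg, map_neg, mul_neg]

end Pool.Agent.X142.MZ
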