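import Mathlib
import Pool.Agent.X142.MZ.Gen

/-!
# Variants of the theorem on near relations between multiple Hurwitz zeta values
-/

set_option autoImplicit false

namespace Pool.Agent.X142.MZ

open NumberField MvPolynomial Filter Topology
open Pool.Agent.X142.AZ (Om mem_Om)

lemma mhz_analytic {s : List ℕ} (hs : Adm s) {z : ℂ} (hz : ∀ n : ℕ, z ≠ -n) : AnalyticAt ℂ (mhz s) z := by
  have h1 : mhz s = F (wd s) := funext fun z => mhz_eq hs.1 z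
  rw [h1]
  exact F_analytic _ (adm_wd hs) (mem_Om.2 hz)

lemma exists_bound (I : Finset (List ℕ)) (hI : ∀ s ∈ I, Adm s) (L : Set ℂ) (hL : IsCompact L)
    (hL0 : ∀ z ∈ L, ∀ n : ℕ, z ≠ -n) : ∃ K : ℝ, 0 ≤ K ∧ ∀ s ∈ I, ∀ z ∈ L, ‖mhz s z‖ ≤ K := by
  classical
  induction I using Finset.induction_on with
  | empty => exact ⟨0, le_rfl, fun s hs => absurd hs (Finset.notMem_empty s)⟩
  | insert a I ha ih =>
    obtain ⟨K, hK, h⟩ := ih fun s hs => hI s (Finset.mem_insert_of_mem hs)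
    obtain ⟨K', h'⟩ := hL.exists_bound_of_continuousOn (f := mhz a) fun z hz =>
      (mhz_analytic (hI a (Finset.mem_insert_self a I)) (hL0 z hz)).continuousAt.continuousWithinAt
    refine ⟨max K K', hK.trans (le_max_left _ _), fun s hs z hz => ?_⟩
    rcases Finset.mem_insert.1 hs with rfl | hs
    · exact (h' z hz).trans (le_max_right _ _)
    · exact (h s hs z hz).trans (le_max_left _ _)

/-- partial sums of a near relation are small -/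
theorem subsum (I : Finset (List ℕ)) (hI : ∀ s ∈ I, Adm s) (L : Set ℂ) (hL : IsCompact L)
    (hL0 : ∀ z ∈ L, ∀ n : ℕ, z ≠ -n) (m g : ℕ) (A ε : ℝ) (hε : 0 < ε) :
    ∃ B C₁ T₀ : ℝ, ∀ (F : Type) [Field F] [NumberField F], Module.finrank ℚ F ≤ m →
      ∀ (ι : F →+* ℂ) (ξ : Fin g → ℂ) (T : ℝ), T₀ ≤ T →
      ∃ X : Finset F, (X.card : ℝ) ≤ C₁ * T ^ ε ∧ ∀ x : F, ι x ∈ L →
        (∃ a c : 𝓞 F, c ≠ 0 ∧ (∀ φ : F →+* ℂ, ‖φ a‖ ≤ T ∧ ‖φ c‖ ≤ T) ∧ x = a / c) → x ∉ X →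
        ∀ c : List ℕ → Fin g → 𝓞 F, (∀ s ∈ I, ∀ i (φ : F →+* ℂ), ‖φ (c s i)‖ ≤ T ^ A) →
          (∀ s₀ ∈ I, ‖∑ i, ξ i * ι (c s₀ i)‖ ≤
            T ^ B * ‖∑ s ∈ I, (∑ i, ξ i * ι (c s i)) * mhz s (ι x)‖) ∧
          ∀ I' ⊆ I, ‖∑ s ∈ I', (∑ i, ξ i * ι (c s i)) * mhz s (ι x)‖ ≤
            T ^ B * ‖∑ s ∈ I, (∑ i, ξ i * ι (c s i)) * mhz s (ι x)‖ := by
  classical
  obtain ⟨B, C₁, T₀, H⟩ := mainX I hI L hL hL0 m g A ε hε
  obtain ⟨K, hK, hKL⟩ := exists_bound I hI L hL hL0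
  refine ⟨B + 1, C₁, max T₀ (max (I.card * K) 1), fun F _ _ hF ι ξ T hT => ?_⟩
  have hT0 : T₀ ≤ T := (le_max_left _ _).trans hT
  have hTK : I.card * K ≤ T := ((le_max_left _ _).trans (le_max_right _ _)).trans hT
  have hT1 : 1 ≤ T := ((le_max_right _ _).trans (le_max_right _ _)).trans hT
  have hTp : 0 < T := lt_of_lt_of_le one_pos hT1
  obtain ⟨X, hX, h⟩ := H F hF ι ξ T hT0
  refine ⟨X, hX, fun x hxL hx hxX c hc => ?_⟩
  set N := ‖∑ s ∈ I, (∑ i, ξ i * ι (c s i)) * mhz s (ι x)‖ with hN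
  have hN0 : 0 ≤ N := norm_nonneg _
  have h1 : ∀ s₀ ∈ I, ‖∑ i, ξ i * ι (c s₀ i)‖ ≤ T ^ B * N := by
    intro s₀ hs₀
    have h2 := h x hxL hx hxX c hc s₀ hs₀
    have h3 : ‖∑ i, ξ i * ι (c s₀ i)‖ = T ^ B * (T ^ (-B) * ‖∑ i, ξ i * ι (c s₀ i)‖) := by
      rw [← mul_assoc, ← Real.rpow_add hTp, add_neg_cancel, Real.rpow_zero, one_mul]
    rw [h3]
    exact mul_le_mul_of_nonneg_left h2 (Real.rpow_nonneg hTp.le _)
  have hBB : T ^ B ≤ T ^ (B + 1) := Real.rpow_le_rpow_of_exponent_le hT1 (by linarith)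
  refine ⟨fun s₀ hs₀ => (h1 s₀ hs₀).trans (mul_le_mul_of_nonneg_right hBB hN0), fun I' hI' => ?_⟩
  refine (norm_sum_le _ _).trans ?_
  have h4 : ∀ s ∈ I', ‖(∑ i, ξ i * ι (c s i)) * mhz s (ι x)‖ ≤ T ^ B * N * K := by
    intro s hs
    rw [norm_mul]
    exact mul_le_mul (h1 s (hI' hs)) (hKL s (hI' hs) _ hxL) (norm_nonneg _)
      (mul_nonneg (Real.rpow_nonneg hTp.le _) hN0)
  refine (Finset.sum_le_sum h4).trans ?_
  rw [Finset.sum_const, nsmul_eq_mul]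
  have h5 : (I'.card : ℝ) * (T ^ B * N * K) ≤ (I.card : ℝ) * (T ^ B * N * K) :=
    mul_le_mul_of_nonneg_right (by exact_mod_cast Finset.card_le_card hI')
      (mul_nonneg (mul_nonneg (Real.rpow_nonneg hTp.le _) hN0) hK)
  refine h5.trans ?_
  rw [Real.rpow_add hTp, Real.rpow_one]
  calc (I.card : ℝ) * (T ^ B * N * K) = (I.card * K) * (T ^ B * N) := by ring
    _ ≤ T * (T ^ B * N) := mul_le_mul_of_nonneg_right hTK (mul_nonneg (Real.rpow_nonneg hTp.le _) hN0)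
    _ = T ^ B * T * N := by ring

/-- a polynomial near relation at one argument is a near identity on a whole compact set -/
theorem spread (M : Finset (List ℕ →₀ ℕ)) (hM : ∀ d ∈ M, ∀ s ∈ d.support, Adm s) (L : Set ℂ)
    (hL : IsCompact L) (hL0 : ∀ z ∈ L, ∀ n : ℕ, z ≠ -n) (m g : ℕ) (A ε : ℝ) (hε : 0 < ε) :
    ∃ B C₁ T₀ : ℝ, ∀ (F : Type) [Field F] [NumberField F], Module.finrank ℚ F ≤ m →
      ∀ (ι : F →+* ℂ) (ξ : Fin g → ℂ) (T : ℝ), T₀ ≤ T →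
      ∃ X : Finset F, (X.card : ℝ) ≤ C₁ * T ^ ε ∧ ∀ x : F, ι x ∈ L →
        (∃ a c : 𝓞 F, c ≠ 0 ∧ (∀ φ : F →+* ℂ, ‖φ a‖ ≤ T ∧ ‖φ c‖ ≤ T) ∧ x = a / c) → x ∉ X →
        ∀ c : (List ℕ →₀ ℕ) → Fin g → 𝓞 F, (∀ d ∈ M, ∀ i (φ : F →+* ℂ), ‖φ (c d i)‖ ≤ T ^ A) →
          ∀ z ∈ L, ‖∑ d ∈ M, (∑ i, ξ i * ι (c d i)) * d.prod fun s k => mhz s z ^ k‖ ≤
            T ^ B * ‖∑ d ∈ M, (∑ i, ξ i * ι (c d i)) * d.prod fun s k => mhz s (ι x) ^ k‖ := by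
  classical
  obtain ⟨W, hWa, n, hJ, B, C₁, T₀, H⟩ := polyQ M hM L hL hL0 m g A ε hε
  obtain ⟨K, hK, hKL⟩ := exists_bound W hWa L hL hL0
  refine ⟨B + 1, C₁, max T₀ (max (W.card * K) 1), fun F _ _ hF ι ξ T hT => ?_⟩
  have hT0 : T₀ ≤ T := (le_max_left _ _).trans hT
  have hTK : W.card * K ≤ T := ((le_max_left _ _).trans (le_max_right _ _)).trans hT
  have hT1 : 1 ≤ T := ((le_max_right _ _).trans (le_max_right _ _)).trans hT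
  have hTp : 0 < T := lt_of_lt_of_le one_pos hT1
  obtain ⟨X, hX, h⟩ := H F hF ι ξ T hT0
  refine ⟨X, hX, fun x hxL hx hxX c hc z hz => ?_⟩
  set N := ‖∑ d ∈ M, (∑ i, ξ i * ι (c d i)) * d.prod fun s k => mhz s (ι x) ^ k‖ with hN
  have hN0 : 0 ≤ N := norm_nonneg _
  have h1 : ∀ w ∈ W, ‖∑ d ∈ M, ((n d w : ℤ) : ℂ) * ∑ i, ξ i * ι (c d i)‖ ≤ T ^ B * N := by
    intro w hw
    have h2 := h x hxL hx hxX c hc w hw
    have h3 : ‖∑ d ∈ M, ((n d w : ℤ) : ℂ) * ∑ i, ξ i * ι (c d i)‖ =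
        T ^ B * (T ^ (-B) * ‖∑ d ∈ M, ((n d w : ℤ) : ℂ) * ∑ i, ξ i * ι (c d i)‖) := by
      rw [← mul_assoc, ← Real.rpow_add hTp, add_neg_cancel, Real.rpow_zero, one_mul]
    rw [h3]
    exact mul_le_mul_of_nonneg_left h2 (Real.rpow_nonneg hTp.le _)
  have h5 := J_eval (RingHom.id ℂ) z (hJ ℂ fun d => ∑ i, ξ i * ι (c d i))
  rw [← coe_eval₂Hom, map_sub, sub_eq_zero, map_sum, map_sum] at h5
  simp only [map_mul, coe_eval₂Hom, eval₂_C, eval₂_X, eval₂_monomial, RingHom.id_apply] at h5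
  rw [h5]
  refine (norm_sum_le _ _).trans ?_
  have h4 : ∀ w ∈ W, ‖(∑ d ∈ M, ((n d w : ℤ) : ℂ) * ∑ i, ξ i * ι (c d i)) * mhz w z‖ ≤ T ^ B * N * K := by
    intro w hw
    rw [norm_mul]
    exact mul_le_mul (h1 w hw) (hKL w hw _ hz) (norm_nonneg _)
      (mul_nonneg (Real.rpow_nonneg hTp.le _) hN0)
  refine (Finset.sum_le_sum h4).trans ?_
  rw [Finset.sum_const, nsmul_eq_mul, Real.rpow_add hTp, Real.rpow_one]
  calc (W.card : ℝ) * (T ^ B * N * K) = (W.card * K) * (T ^ B * N) := by ring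
    _ ≤ T * (T ^ B * N) := mul_le_mul_of_nonneg_right hTK (mul_nonneg (Real.rpow_nonneg hTp.le _) hN0)
    _ = T ^ B * T * N := by ring

end Pool.Agent.X142.MZ
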