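import Mathlib
import Pool.Agent.X142.MZ.Poly

/-!
# Values with an entry `1` modulo the algebra of the values with entries `≥ 2`
-/

set_option autoImplicit false

namespace Pool.Agent.X142.MZ

open NumberField MvPolynomial

lemma ge_adm {s : List ℕ} (h : ∀ a ∈ s, 2 ≤ a) : Adm s := by
  refine ⟨fun a ha => by have := h a ha; omega, fun h1 => ?_⟩
  have h2 := h 1 (List.mem_of_getLast? h1)
  omega

lemma stuffle_ge : ∀ u v : List ℕ, (∀ a ∈ u, 2 ≤ a) → (∀ a ∈ v, 2 ≤ a) → ∀ w ∈ stuffle u v, ∀ a ∈ w, 2 ≤ a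
  | [], v, _, hv, w, hw => by
    rw [stuffle, List.mem_singleton] at hw
    rw [hw]
    exact hv
  | a :: u, [], hu, _, w, hw => by
    rw [stuffle, List.mem_singleton] at hw
    rw [hw]
    exact hu
  | a :: u, b :: v, hu, hv, w, hw => by
    have ha := hu a List.mem_cons_self
    have hb := hv b List.mem_cons_self
    have hu' : ∀ c ∈ u, 2 ≤ c := fun c hc => hu c (List.mem_cons_of_mem _ hc)
    have hv' : ∀ c ∈ v, 2 ≤ c := fun c hc => hv c (List.mem_cons_of_mem _ hc)
    rw [stuffle, List.mem_append, List.mem_append, List.mem_map, List.mem_map, List.mem_map] at hw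
    rcases hw with ⟨w', hw', rfl⟩ | ⟨w', hw', rfl⟩ | ⟨w', hw', rfl⟩
    · have := stuffle_ge u (b :: v) hu' hv w' hw'
      intro c hc
      rcases List.mem_cons.1 hc with rfl | hc
      · exact ha
      · exact this c hc
    · have := stuffle_ge (a :: u) v hu hv' w' hw'
      intro c hc
      rcases List.mem_cons.1 hc with rfl | hc
      · exact hb
      · exact this c hc
    · have := stuffle_ge u v hu' hv' w' hw'
      intro c hc
      rcases List.mem_cons.1 hc with rfl | hc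
      · omega
      · exact this c hc
termination_by u v => u.length + v.length

/-- polynomials that are linear in the values with entries `≥ 2` modulo the stuffle relations -/
noncomputable def LinM2 : Submonoid (MvPolynomial (List ℕ) ℤ) where
  carrier := {p | ∃ n ∈ Finsupp.supported ℤ ℤ {w : List ℕ | ∀ a ∈ w, 2 ≤ a}, p - Ln n ∈ J ℤ}
  one_mem' := by
    refine ⟨Finsupp.single [] 1, Finsupp.single_mem_supported ℤ 1 (by
      show ∀ a ∈ ([] : List ℕ), 2 ≤ a
      exact fun a ha => absurd ha List.not_mem_nil), ?_⟩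
    rw [Ln_single, one_smul, ← neg_sub]
    exact neg_mem (Ideal.subset_span (Or.inl rfl))
  mul_mem' := by
    rintro p q ⟨n, hn, hp⟩ ⟨m, hm, hq⟩
    refine ⟨n.sum fun u a => m.sum fun v b => (a * b) • ((stuffle u v).map fun w => Finsupp.single w (1 : ℤ)).sum,
      ?_, ?_⟩
    · refine Submodule.sum_mem _ fun u hu => Submodule.sum_mem _ fun v hv => Submodule.smul_mem _ _
        (list_sum_mem fun x hx => ?_)
      obtain ⟨w, hw, rfl⟩ := List.mem_map.1 hx
      exact Finsupp.single_mem_supported ℤ 1 (stuffle_ge u v (hn hu) (hm hv) w hw)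
    · have h1 : p * q - Ln n * Ln m ∈ J ℤ := by
        have : p * q - Ln n * Ln m = q * (p - Ln n) + Ln n * (q - Ln m) := by ring
        rw [this]
        exact add_mem (Ideal.mul_mem_left _ _ hp) (Ideal.mul_mem_left _ _ hq)
      have h2 : Ln n * Ln m - Ln (n.sum fun u a => m.sum fun v b =>
          (a * b) • ((stuffle u v).map fun w => Finsupp.single w (1 : ℤ)).sum) ∈ J ℤ := by
        have h3 : Ln n * Ln m - Ln (n.sum fun u a => m.sum fun v b =>
            (a * b) • ((stuffle u v).map fun w => Finsupp.single w (1 : ℤ)).sum) =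
            ∑ u ∈ n.support, ∑ v ∈ m.support, (n u * m v) • (X u * X v - ((stuffle u v).map X).sum) := by
          have h4 : Ln n = ∑ u ∈ n.support, n u • X u := by
            rw [Ln, Finsupp.linearCombination_apply]
            rfl
          have h5 : Ln m = ∑ u ∈ m.support, m u • X u := by
            rw [Ln, Finsupp.linearCombination_apply]
            rfl
          have h6 : Ln (n.sum fun u a => m.sum fun v b =>
              (a * b) • ((stuffle u v).map fun w => Finsupp.single w (1 : ℤ)).sum) =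
              ∑ u ∈ n.support, ∑ v ∈ m.support, (n u * m v) • ((stuffle u v).map X).sum := by
            rw [Finsupp.sum, map_sum]
            refine Finset.sum_congr rfl fun u _ => ?_
            rw [Finsupp.sum, map_sum]
            refine Finset.sum_congr rfl fun v _ => ?_
            rw [map_smul, map_list_sum, List.map_map]
            congr 2
            refine List.map_congr_left fun w _ => ?_
            rw [Function.comp_apply, Ln_single, one_smul]
          rw [h6, h4, h5, Finset.sum_mul_sum, ← Finset.sum_sub_distrib]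
          refine Finset.sum_congr rfl fun u _ => ?_
          rw [← Finset.sum_sub_distrib]
          refine Finset.sum_congr rfl fun v _ => ?_
          rw [smul_sub, smul_mul_smul_comm]
        rw [h3]
        exact Submodule.sum_mem _ fun u hu => Submodule.sum_mem _ fun v hv => by
          rw [zsmul_eq_mul]
          exact Ideal.mul_mem_left _ _ (Ideal.subset_span (Or.inr ⟨u, v, ge_adm (hn hu), ge_adm (hm hv), rfl⟩))
      have := add_mem h1 h2
      rwa [sub_add_sub_cancel] at this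

lemma expand2 (d : List ℕ →₀ ℕ) (hd : ∀ w ∈ d.support, ∀ a ∈ w, 2 ≤ a) :
    ∃ n : List ℕ →₀ ℤ, (∀ w ∈ n.support, ∀ a ∈ w, 2 ≤ a) ∧ monomial d (1 : ℤ) - Ln n ∈ J ℤ := by
  have h1 : monomial d (1 : ℤ) ∈ LinM2 := by
    rw [monomial_eq, C_1, one_mul]
    refine Submonoid.prod_mem _ fun w hw => Submonoid.pow_mem _ ?_ _
    exact ⟨Finsupp.single w 1, Finsupp.single_mem_supported ℤ 1 (hd w hw), by
      rw [Ln_single, one_smul, sub_self]
      exact zero_mem _⟩
  obtain ⟨n, hn, h⟩ := h1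
  exact ⟨n, fun w hw => hn hw, h⟩

/-- values with an entry `1` are independent modulo polynomials in values with entries `≥ 2` -/
theorem modAlg (E : Finset (List ℕ)) (hE : ∀ s ∈ E, Adm s ∧ 1 ∈ s) (M : Finset (List ℕ →₀ ℕ))
    (hM : ∀ d ∈ M, ∀ s ∈ d.support, ∀ a ∈ s, 2 ≤ a) (L : Set ℂ)
    (hL : IsCompact L) (hL0 : ∀ z ∈ L, ∀ n : ℕ, z ≠ -n) (m g : ℕ) (A ε : ℝ) (hε : 0 < ε) :
    ∃ B C₁ T₀ : ℝ, ∀ (F : Type) [Field F] [NumberField F], Module.finrank ℚ F ≤ m →
      ∀ (ι : F →+* ℂ) (ξ : Fin g → ℂ) (T : ℝ), T₀ ≤ T →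
      ∃ X : Finset F, (X.card : ℝ) ≤ C₁ * T ^ ε ∧ ∀ x : F, ι x ∈ L →
        (∃ a c : 𝓞 F, c ≠ 0 ∧ (∀ φ : F →+* ℂ, ‖φ a‖ ≤ T ∧ ‖φ c‖ ≤ T) ∧ x = a / c) → x ∉ X →
        ∀ (c : List ℕ → Fin g → 𝓞 F) (e : (List ℕ →₀ ℕ) → Fin g → 𝓞 F),
          (∀ s ∈ E, ∀ i (φ : F →+* ℂ), ‖φ (c s i)‖ ≤ T ^ A) →
          (∀ d ∈ M, ∀ i (φ : F →+* ℂ), ‖φ (e d i)‖ ≤ T ^ A) →
          ∀ s₀ ∈ E, T ^ (-B) * ‖∑ i, ξ i * ι (c s₀ i)‖ ≤
            ‖∑ s ∈ E, (∑ i, ξ i * ι (c s i)) * mhz s (ι x) -
              ∑ d ∈ M, (∑ i, ξ i * ι (e d i)) * d.prod fun s k => mhz s (ι x) ^ k‖ := by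
  classical
  have hex : ∀ d : List ℕ →₀ ℕ, ∃ n : List ℕ →₀ ℤ, d ∈ M → (∀ w ∈ n.support, ∀ a ∈ w, 2 ≤ a) ∧
      monomial d (1 : ℤ) - Ln n ∈ J ℤ := fun d => by
    by_cases hd : d ∈ M
    · obtain ⟨n, hn⟩ := expand2 d (hM d hd)
      exact ⟨n, fun _ => hn⟩
    · exact ⟨0, fun h => absurd h hd⟩
  choose n hn using hex
  set W : Finset (List ℕ) := M.biUnion fun d => (n d).support with hW
  have hWa : ∀ w ∈ W, ∀ a ∈ w, 2 ≤ a := fun w hw => by
    obtain ⟨d, hd, h⟩ := Finset.mem_biUnion.1 hw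
    exact (hn d hd).1 w h
  have hWs : ∀ d ∈ M, (n d).support ⊆ W := fun d hd => Finset.subset_biUnion_of_mem (fun d => (n d).support) hd
  have hdis : Disjoint E W := Finset.disjoint_left.2 fun s hs hs' => by
    have := hWa s hs' 1 (hE s hs).2
    omega
  have hWE : ∀ w ∈ W, w ∉ E := fun w hw hw' => Finset.disjoint_left.1 hdis hw' hw
  set N0 : ℝ := ∑ w ∈ W, ∑ d ∈ M, |(n d w : ℝ)| with hN0
  have hN0w : ∀ w ∈ W, ∑ d ∈ M, |(n d w : ℝ)| ≤ N0 := fun w hw =>
    Finset.single_le_sum (f := fun w => ∑ d ∈ M, |(n d w : ℝ)|)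
      (fun _ _ => Finset.sum_nonneg fun _ _ => abs_nonneg _) hw
  obtain ⟨B, C₁, T₀, H⟩ := mainX (E ∪ W) (fun s hs => by
    rcases Finset.mem_union.1 hs with h | h
    · exact (hE s h).1
    · exact ge_adm (hWa s h)) L hL hL0 m g (A + 1) ε hε
  refine ⟨B, C₁, max T₀ (max N0 1), fun F _ _ hF ι ξ T hT => ?_⟩
  have hT0 : T₀ ≤ T := (le_max_left _ _).trans hT
  have hTN : N0 ≤ T := ((le_max_left _ _).trans (le_max_right _ _)).trans hT
  have hT1 : 1 ≤ T := ((le_max_right _ _).trans (le_max_right _ _)).trans hT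
  have hTp : 0 < T := lt_of_lt_of_le one_pos hT1
  obtain ⟨X, hX, h⟩ := H F hF ι ξ T hT0
  refine ⟨X, hX, fun x hxL hx hxX c e hc he s₀ hs₀ => ?_⟩
  set c' : List ℕ → Fin g → 𝓞 F := fun s => if s ∈ E then c s else fun i => -∑ d ∈ M, (n d s) • e d i with hc'
  have hsumφ : ∀ (s : List ℕ) (i : Fin g) (φ : F →+* ℂ),
      φ ((-∑ d ∈ M, (n d s) • e d i : 𝓞 F) : F) = -∑ d ∈ M, ((n d s : ℤ) : ℂ) * φ (e d i) := by
    intro s i φ
    show φ (algebraMap (𝓞 F) F (-∑ d ∈ M, (n d s) • e d i)) = _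
    rw [map_neg, map_neg, map_sum, map_sum]
    congr 1
    refine Finset.sum_congr rfl fun d _ => ?_
    rw [zsmul_eq_mul, map_mul, map_mul, map_intCast, map_intCast]
  have hTA : T ^ A ≤ T ^ (A + 1) := Real.rpow_le_rpow_of_exponent_le hT1 (by linarith)
  have hbd : ∀ s ∈ E ∪ W, ∀ i (φ : F →+* ℂ), ‖φ (c' s i)‖ ≤ T ^ (A + 1) := by
    intro s hs i φ
    by_cases hsE : s ∈ E
    · rw [hc']
      simp only [if_pos hsE]
      exact (hc s hsE i φ).trans hTA
    · have hsW : s ∈ W := (Finset.mem_union.1 hs).resolve_left hsE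
      rw [hc']
      simp only [if_neg hsE]
      rw [hsumφ, norm_neg]
      refine (norm_sum_le _ _).trans ?_
      have h2 : ∀ d ∈ M, ‖((n d s : ℤ) : ℂ) * φ (e d i)‖ ≤ |(n d s : ℝ)| * T ^ A := fun d hd => by
        rw [norm_mul, Complex.norm_intCast]
        exact mul_le_mul_of_nonneg_left (he d hd i φ) (abs_nonneg _)
      refine (Finset.sum_le_sum h2).trans ?_
      rw [← Finset.sum_mul, Real.rpow_add hTp, Real.rpow_one, mul_comm]
      exact mul_le_mul_of_nonneg_left ((hN0w s hsW).trans hTN) (Real.rpow_nonneg hTp.le _)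
  have h1 := h x hxL hx hxX c' hbd s₀ (Finset.mem_union_left _ hs₀)
  have hcs₀ : c' s₀ = c s₀ := by
    rw [hc']
    exact if_pos hs₀
  rw [hcs₀] at h1
  refine h1.trans (le_of_eq ?_)
  congr 1
  rw [Finset.sum_union hdis, sub_eq_add_neg]
  congr 1
  · refine Finset.sum_congr rfl fun s hs => ?_
    have : c' s = c s := by
      rw [hc']
      exact if_pos hs
    rw [this]
  · -- the algebra part
    have h5 := J_eval (RingHom.id ℂ) (ι x) (expand_map (R := ℂ) (fun d hd => (hn d hd).2) hWs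
      fun d => ∑ i, ξ i * ι (e d i))
    rw [← coe_eval₂Hom, map_sub, sub_eq_zero, map_sum, map_sum] at h5
    simp only [map_mul, coe_eval₂Hom, eval₂_C, eval₂_X, eval₂_monomial, RingHom.id_apply] at h5
    rw [h5, ← Finset.sum_neg_distrib]
    refine Finset.sum_congr rfl fun w hw => ?_
    have h6 : c' w = fun i => -∑ d ∈ M, (n d w) • e d i := by
      rw [hc']
      exact if_neg (hWE w hw)
    rw [h6, ← neg_mul]
    congr 1
    simp only [hsumφ, Finset.mul_sum, mul_neg]
    rw [Finset.sum_neg_distrib, Finset.sum_comm]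
    congr 1
    refine Finset.sum_congr rfl fun d _ => Finset.sum_congr rfl fun i _ => ?_
    ring

end Pool.Agent.X142.MZ
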